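import Pool.Agent.Helper89.GW.REG

set_option autoImplicit false

open scoped ContDiff Topology
open Set Filter

namespace GW

theorem coib_sp_zero : (sp fun _ _ => 0) = fun _ => 0 := by
  funext z
  simp [sp, Sp]

theorem coib_zero_sup : SupI (fun _ _ => (0 : ℤ)) := by
  intro c k h
  exact absurd rfl h

theorem coib_nd (hLAM : ST_LAM) (hELEM : ST_ELEM) {X : El} {x : ℝ} (hX : X.mem x) {c : ℤ}
    (hc : c ∈ X.nd) : |x - c| < 5 / 4 := by
  have h1 := ((hELEM.2 X x hX).2.1 c).2 hc
  exact (hLAM.2.2.2.2.2.2.1 _).1 h1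

/-- rows/columns of the ring -/
theorem coib_X {x : ℝ} (h1 : 13 / 4 < x) (h2 : x < 31 / 4) :
    ∃ X ∈ X3, X.mem x ∧ (x < 15 / 4 → X = El.cell 3) ∧ (29 / 4 < x → X = El.cell 7) := by
  have key : ∀ X : El, X ∈ X3 → X.mem x → ¬ (x < 15 / 4) → ¬ (29 / 4 < x) →
      ∃ X ∈ X3, X.mem x ∧ (x < 15 / 4 → X = El.cell 3) ∧ (29 / 4 < x → X = El.cell 7) :=
    fun X h h' n1 n2 => ⟨X, h, h', fun h => absurd h n1, fun h => absurd h n2⟩
  by_cases a1 : x < 15 / 4
  · exact ⟨El.cell 3, by decide, ⟨by push_cast; linarith, by push_cast; linarith⟩, fun _ => rfl,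
      fun h => by linarith⟩
  by_cases a2 : 29 / 4 < x
  · exact ⟨El.cell 7, by decide, ⟨by push_cast; linarith, by push_cast; linarith⟩,
      fun h => by linarith, fun _ => rfl⟩
  by_cases b0 : x = 15 / 4
  · exact key (El.cell 3) (by decide) ⟨by push_cast; linarith, by push_cast; linarith⟩ a1 a2
  by_cases b1 : x = 29 / 4
  · exact key (El.cell 7) (by decide) ⟨by push_cast; linarith, by push_cast; linarith⟩ a1 a2
  have c1 : 15 / 4 < x := lt_of_le_of_ne (by linarith) (Ne.symm b0)
  have c2 : x < 29 / 4 := lt_of_le_of_ne (by linarith) b1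
  by_cases b2 : x < 17 / 4
  · exact key (El.near 4) (by decide) (by simp only [El.mem]; rw [abs_lt]; push_cast; constructor <;> linarith) a1 a2
  by_cases b3 : x ≤ 19 / 4
  · exact key (El.cell 4) (by decide) ⟨by push_cast; linarith, by push_cast; linarith⟩ a1 a2
  by_cases b4 : x < 21 / 4
  · exact key (El.near 5) (by decide) (by simp only [El.mem]; rw [abs_lt]; push_cast; constructor <;> linarith) a1 a2
  by_cases b5 : x ≤ 23 / 4
  · exact key (El.cell 5) (by decide) ⟨by push_cast; linarith, by push_cast; linarith⟩ a1 a2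
  by_cases b6 : x < 25 / 4
  · exact key (El.near 6) (by decide) (by simp only [El.mem]; rw [abs_lt]; push_cast; constructor <;> linarith) a1 a2
  by_cases b7 : x ≤ 27 / 4
  · exact key (El.cell 6) (by decide) ⟨by push_cast; linarith, by push_cast; linarith⟩ a1 a2
  exact key (El.near 7) (by decide) (by simp only [El.mem]; rw [abs_lt]; push_cast; constructor <;> linarith) a1 a2

/-- rows of the ring -/
def coibT : List El := El.cell 8 :: els 9 15

theorem coib_T (hELEM : ST_ELEM) {t : ℝ} (h1 : 33 / 4 < t) (h2 : t < 63 / 4) :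
    ∃ T ∈ coibT, T.mem t ∧ (t < 35 / 4 → T = El.cell 8) ∧ (61 / 4 < t → T = El.cell 15) := by
  by_cases a1 : t < 35 / 4
  · exact ⟨El.cell 8, by decide, ⟨by push_cast; linarith, by push_cast; linarith⟩, fun _ => rfl,
      fun h => by linarith⟩
  by_cases a2 : 61 / 4 < t
  · exact ⟨El.cell 15, by decide, ⟨by push_cast; linarith, by push_cast; linarith⟩,
      fun h => by linarith, fun _ => rfl⟩
  obtain ⟨T, hT⟩ := hELEM.1 t
  refine ⟨T, ?_, hT, fun h => absurd h a1, fun h => absurd h a2⟩
  push Not at a1 a2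
  rcases T with c | c
  · simp only [El.mem, abs_lt] at hT
    have e1 : (8 : ℤ) < c := by
      have : (8 : ℝ) < c := by linarith
      exact_mod_cast this
    have e2 : c < (16 : ℤ) := by
      have : (c : ℝ) < 16 := by linarith
      exact_mod_cast this
    interval_cases c <;> decide
  · simp only [El.mem] at hT
    have e1 : (7 : ℤ) < c := by
      have : (7 : ℝ) < c := by linarith
      exact_mod_cast this
    have e2 : c < (16 : ℤ) := by
      have : (c : ℝ) < 16 := by linarith
      exact_mod_cast this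
    interval_cases c <;> decide

/-- the finite checks -/
def coibC : Bool := X3.all fun X => coibT.all fun T =>
  X.nd.all (fun c => T.nd.all fun k => decide (aI c k = aI' c k) && decide (0 ≤ aI c k) &&
    decide (0 ≤ bI c k) && decide (0 ≤ pI c k - qI c k) && decide (xI c k = 1)) &&
  full aI X T && full bI X T &&
  (if X = El.cell 3 ∨ X = El.cell 7 ∨ T = El.cell 8 ∨ T = El.cell 15 then
    X.nd.all (fun c => T.nd.all fun k => decide (pI c k = aI c k) &&
      decide (qI c k = mI c k + bI c k)) && full (fun c k => pI c k - qI c k) X T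
  else true)

set_option maxRecDepth 100000 in
theorem coib_chk : coibC = true := by decide +kernel

theorem coib_get {X T : El} (hX : X ∈ X3) (hT : T ∈ coibT) :
    (∀ c ∈ X.nd, ∀ k ∈ T.nd, aI c k = aI' c k ∧ 0 ≤ aI c k ∧ 0 ≤ bI c k ∧ 0 ≤ pI c k - qI c k ∧
      xI c k = 1) ∧ full aI X T = true ∧ full bI X T = true ∧
    ((X = El.cell 3 ∨ X = El.cell 7 ∨ T = El.cell 8 ∨ T = El.cell 15) →
      (∀ c ∈ X.nd, ∀ k ∈ T.nd, pI c k = aI c k ∧ qI c k = mI c k + bI c k) ∧
      full (fun c k => pI c k - qI c k) X T = true) := by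
  have h := coib_chk
  unfold coibC at h
  rw [List.all_eq_true] at h
  have h2 := h X hX
  rw [List.all_eq_true] at h2
  have h3 := h2 T hT
  rw [Bool.and_eq_true, Bool.and_eq_true, Bool.and_eq_true] at h3
  obtain ⟨⟨⟨h4, h5⟩, h6⟩, h7⟩ := h3
  refine ⟨?_, h5, h6, ?_⟩
  · intro c hc k hk
    rw [List.all_eq_true] at h4
    have h8 := h4 c hc
    rw [List.all_eq_true] at h8
    have h9 := h8 k hk
    simp only [Bool.and_eq_true, decide_eq_true_eq] at h9
    exact ⟨h9.1.1.1.1, h9.1.1.1.2, h9.1.1.2, h9.1.2, h9.2⟩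
  · intro hr
    rw [if_pos hr, Bool.and_eq_true] at h7
    refine ⟨?_, h7.2⟩
    intro c hc k hk
    have h8 := h7.1
    rw [List.all_eq_true] at h8
    have h9 := h8 c hc
    rw [List.all_eq_true] at h9
    have h10 := h9 k hk
    simp only [Bool.and_eq_true, decide_eq_true_eq] at h10
    exact h10

theorem coib_band (hLAM : ST_LAM) (hELEM : ST_ELEM) (hDAT : ST_DAT) (hSLOC : ST_SLOC)
    (hSPD : ST_SPD) (T : El) (hTn : ∀ k ∈ T.nd, 3 ≤ k ∧ k ≤ 21 ∧ (k ≤ 4 ∨ 20 ≤ k))
    (x t : ℝ) (hT : T.mem t) :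
    (x < -9 / 4 → Same uA uB (x, t) ∧ Same uA' (fun _ => 0) (x, t) ∧
      Same mR (fun _ => 0) (x, t)) ∧
    (-11 / 4 < x → Same uA uA' (x, t) ∧ Same uB (fun _ => 0) (x, t)) := by
  obtain ⟨⟨sA, sA', sB, sM, sP, sQ, sX⟩, -, -, ⟨hl, hr⟩, -⟩ := hDAT
  obtain ⟨X, hX⟩ := hELEM.1 x
  have D : ∀ {z : ℤ → ℤ → ℤ}, SupI z → Differentiable ℝ (sp z) :=
    fun h => (hSPD _ h).1.differentiable (by simp)
  have zero : ∀ {z : ℤ → ℤ → ℤ}, SupI z → (∀ c ∈ X.nd, ∀ k ∈ T.nd, z c k = 0) →
      Same (sp z) (fun _ => 0) (x, t) := by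
    intro z hz h
    have := hSLOC z (fun _ _ => 0) X T x t hz coib_zero_sup hX hT h
    rwa [coib_sp_zero] at this
  constructor
  · intro hx
    have hc : ∀ c ∈ X.nd, c ≤ -2 := by
      intro c hc
      have h1 := (abs_lt.1 (coib_nd hLAM hELEM hX hc)).1
      have : (c : ℝ) < -1 := by linarith
      have h2 : c < -1 := by exact_mod_cast this
      omega
    have hh := fun c (hc' : c ∈ X.nd) k (hk : k ∈ T.nd) =>
      hl c k (hc c hc') (hTn k hk).1 (hTn k hk).2.1 (hTn k hk).2.2
    refine ⟨hSLOC aI bI X T x t sA sB hX hT fun c h k h' => (hh c h k h').1,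
      zero sA' fun c h k h' => (hh c h k h').2.1, ?_⟩
    have e1 := zero sM fun c h k h' => (hh c h k h').2.2.1
    have e2 := zero sX fun c h k h' => (hh c h k h').2.2.2
    have e3 := reg_same_comb 1 (2 * kk) 0 (D sM) (D sX) (differentiable_const (0 : ℝ))
      (differentiable_const (0 : ℝ)) e1 e2
    have E1 : mR = fun z => 1 * sp mI z + 2 * kk * sp xI z + 0 := by
      funext z; simp only [mR]; ring
    have E2 : (fun _ : ℝ × ℝ => (1 : ℝ) * 0 + 2 * kk * 0 + 0) = fun _ => 0 := by
      funext z; ring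
    rw [E2] at e3
    rw [E1]
    exact e3
  · intro hx
    have hc : ∀ c ∈ X.nd, -3 ≤ c := by
      intro c hc
      have h1 := (abs_lt.1 (coib_nd hLAM hELEM hX hc)).2
      have : (-4 : ℝ) < c := by linarith
      have h2 : (-4 : ℤ) < c := by exact_mod_cast this
      omega
    have hh := fun c (hc' : c ∈ X.nd) k (hk : k ∈ T.nd) =>
      hr c k (hc c hc') (hTn k hk).1 (hTn k hk).2.1 (hTn k hk).2.2
    exact ⟨hSLOC aI aI' X T x t sA sA' hX hT fun c h k h' => (hh c h k h').1,
      zero sB fun c h k h' => (hh c h k h').2⟩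

theorem st_COI (hLAM : ST_LAM) (hELEM : ST_ELEM) (hDAT : ST_DAT) (hSLOC : ST_SLOC)
    (hSPD : ST_SPD) (hSIGN : ST_SIGN) (hSLIN : ST_SLIN) : ST_COI := by
  refine ⟨?_, ?_⟩
  · rintro ⟨x, t⟩ hz
    rcases hz with ⟨h1, h2⟩ | ⟨h1, h2⟩
    · refine coib_band hLAM hELEM hDAT hSLOC hSPD (El.cell 3) ?_ x t
        ⟨by push_cast; simp only at h1; linarith, by push_cast; simp only at h2; linarith⟩
      intro k hk
      simp only [El.nd, List.mem_cons, List.not_mem_nil, or_false] at hk
      omega
    · refine coib_band hLAM hELEM hDAT hSLOC hSPD (El.cell 20) ?_ x t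
        ⟨by push_cast; simp only at h1; linarith, by push_cast; simp only at h2; linarith⟩
      intro k hk
      simp only [El.nd, List.mem_cons, List.not_mem_nil, or_false] at hk
      omega
  · rintro ⟨x, t⟩ hz
    obtain ⟨hx1, hx2, ht1, ht2⟩ := hz
    simp only at hx1 hx2 ht1 ht2
    obtain ⟨X, hXm, hX, hXa, hXb⟩ := coib_X hx1 hx2
    obtain ⟨T, hTm, hT, hTa, hTb⟩ := coib_T hELEM ht1 ht2
    obtain ⟨c1, c2, c3, c4⟩ := coib_get hXm hTm
    obtain ⟨⟨sA, sA', sB, sM, sP, sQ, sX⟩, -⟩ := hDAT
    have D : ∀ {z : ℤ → ℤ → ℤ}, SupI z → Differentiable ℝ (sp z) :=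
      fun h => (hSPD _ h).1.differentiable (by simp)
    have hee : ee ≤ 1 / 32 := by unfold ee; norm_num
    have S := hSIGN
    -- the constant array
    have v1 : sp xI (x, t) = 1 := by
      have a1 := (hSIGN xI X T x t sX hX hT).2.2.2.2.2.2 1
        (fun c hc k hk => (c1 c hc k hk).2.2.2.2.ge) (by linarith) (by linarith) (by linarith)
        (by linarith)
      have hs := hSLIN (fun _ _ => 0) (fun _ _ => 0) xI 1 0 (x, t) coib_zero_sup coib_zero_sup sX
      have a2 := (hSIGN _ X T x t hs.1 hX hT).2.2.2.2.2.2 (-1)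
        (fun c hc k hk => by have := (c1 c hc k hk).2.2.2.2; simp [this]) (by linarith)
        (by linarith) (by linarith) (by linarith)
      rw [hs.2.1, coib_sp_zero] at a2
      push_cast at a1 a2
      linarith
    have v2 : dX (sp xI) (x, t) = 0 := by
      rw [(hSPD xI sX).2.2.1 x t]
      refine Finset.sum_eq_zero fun c _ => Finset.sum_eq_zero fun k _ => ?_
      by_cases hc : c ∈ X.iv
      · by_cases hk : k ∈ T.nd
        · have hc1 : c ∈ X.nd ∧ c + 1 ∈ X.nd := by
            rcases X with d | d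
            · simp only [El.iv, El.nd, List.mem_cons, List.not_mem_nil, or_false] at hc ⊢
              omega
            · simp only [El.iv, El.nd, List.mem_cons, List.not_mem_nil, or_false] at hc ⊢
              omega
          have e1 := (c1 c hc1.1 k hk).2.2.2.2
          have e2 := (c1 (c + 1) hc1.2 k hk).2.2.2.2
          rw [e1, e2]
          simp
        · have : Lam (t - k) = 0 := by
            have h := ((hELEM.2 T t hT).2.1 k).not.2 hk
            exact le_antisymm (not_lt.1 h) (hLAM.2.2.2.2.1 _)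
          rw [this, mul_zero]
      · have : Bx (x - c) = 0 := by
          have h := ((hELEM.2 X x hX).1 c).not.2 hc
          exact le_antisymm (not_lt.1 h) (hLAM.2.2.2.1 _)
        rw [this, mul_zero, zero_mul]
    have v3 : dT (sp xI) (x, t) = 0 := by
      rw [(hSPD xI sX).2.2.2 x t]
      refine Finset.sum_eq_zero fun c _ => Finset.sum_eq_zero fun k _ => ?_
      by_cases hk : k ∈ T.iv
      · by_cases hc : c ∈ X.nd
        · have hk1 : k ∈ T.nd ∧ k + 1 ∈ T.nd := by
            rcases T with d | d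
            · simp only [El.iv, El.nd, List.mem_cons, List.not_mem_nil, or_false] at hk ⊢
              omega
            · simp only [El.iv, El.nd, List.mem_cons, List.not_mem_nil, or_false] at hk ⊢
              omega
          have e1 := (c1 c hc k hk1.1).2.2.2.2
          have e2 := (c1 c hc (k + 1) hk1.2).2.2.2.2
          rw [e1, e2]
          simp
        · have : Lam (x - c) = 0 := by
            have h := ((hELEM.2 X x hX).2.1 c).not.2 hc
            exact le_antisymm (not_lt.1 h) (hLAM.2.2.2.2.1 _)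
          rw [this, mul_zero, zero_mul]
      · have : Bx (t - k) = 0 := by
          have h := ((hELEM.2 T t hT).1 k).not.2 hk
          exact le_antisymm (not_lt.1 h) (hLAM.2.2.2.1 _)
        rw [this, mul_zero]
    have s1 : Same (sp xI) (fun _ => 1) (x, t) := by
      refine ⟨v1, ?_, ?_⟩
      · rw [v2]; simp [dX]
      · rw [v3]; simp [dT]
    have bd : ∀ {z : ℤ → ℤ → ℤ}, SupI z → (∀ c ∈ X.nd, ∀ k ∈ T.nd, 0 ≤ z c k) →
        full z X T = true → 1 / 16 ≤ sp z (x, t) := fun hz h h' =>
      (hSIGN _ X T x t hz hX hT).2.2.2.2.2.1 h h'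
    refine ⟨hSLOC aI aI' X T x t sA sA' hX hT fun c hc k hk => (c1 c hc k hk).1, ?_, ?_, ?_, ?_⟩
    · have e3 := reg_same_comb 1 (2 * kk) 0 (D sM) (D sX) (D sM)
        (differentiable_const (1 : ℝ)) (reg_same_refl (sp mI) (x, t)) s1
      have E1 : mR = fun z => 1 * sp mI z + 2 * kk * sp xI z + 0 := by
        funext z; simp only [mR]; ring
      have E2 : (fun z => sp mI z + 2 * kk) = fun z => 1 * sp mI z + 2 * kk * 1 + 0 := by
        funext z; ring
      rw [E1, E2]
      exact e3
    · have := bd sA (fun c hc k hk => (c1 c hc k hk).2.1) c2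
      show ee ≤ sp aI (x, t)
      linarith
    · have := bd sB (fun c hc k hk => (c1 c hc k hk).2.2.1) c3
      show ee ≤ sp bI (x, t)
      linarith
    · rintro ⟨-, -, hO⟩
      simp only at hO
      have hring : X = El.cell 3 ∨ X = El.cell 7 ∨ T = El.cell 8 ∨ T = El.cell 15 := by
        by_contra hn
        push Not at hn
        obtain ⟨n1, n2, n3, n4⟩ := hn
        exact hO ⟨le_of_not_gt fun h => n1 (hXa h), le_of_not_gt fun h => n2 (hXb h),
          le_of_not_gt fun h => n3 (hTa h), le_of_not_gt fun h => n4 (hTb h)⟩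
      obtain ⟨e1, e2⟩ := c4 hring
      refine ⟨hSLOC pI aI X T x t sP sA hX hT fun c hc k hk => (e1 c hc k hk).1, ?_, ?_⟩
      · have hs := hSLIN mI bI (fun _ _ => 0) 0 1 (x, t) sM sB coib_zero_sup
        have h1 := hSLOC qI _ X T x t sQ hs.1 hX hT fun c hc k hk => by
          rw [(e1 c hc k hk).2]; ring
        have hadd : Same (fun z => sp mI z + sp bI z)
            (sp fun c k => mI c k + 1 * bI c k - 0 * (0 : ℤ)) (x, t) := by
          have q1 : dX (fun z => sp mI z + sp bI z) (x, t) =
              dX (sp mI) (x, t) + dX (sp bI) (x, t) := by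
            unfold dX
            rw [fderiv_fun_add (D sM _) (D sB _)]
            rfl
          have q2 : dT (fun z => sp mI z + sp bI z) (x, t) =
              dT (sp mI) (x, t) + dT (sp bI) (x, t) := by
            unfold dT
            rw [fderiv_fun_add (D sM _) (D sB _)]
            rfl
          refine ⟨?_, ?_, ?_⟩
          · rw [hs.2.1]; push_cast; ring
          · rw [hs.2.2.1, q1]; push_cast; ring
          · rw [hs.2.2.2, q2]; push_cast; ring
        exact reg_same_trans h1 (reg_same_symm hadd)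
      · have hs := hSLIN pI (fun _ _ => 0) qI 1 0 (x, t) sP coib_zero_sup sQ
        have hf : full (fun c k => pI c k + 0 * (0 : ℤ) - 1 * qI c k) X T = true := by
          have : (fun c k => pI c k + 0 * (0 : ℤ) - 1 * qI c k) = fun c k => pI c k - qI c k := by
            funext c k; ring
          rw [this]
          exact e2
        have h1 := bd hs.1 (fun c hc k hk => by
          have := (c1 c hc k hk).2.2.2.1
          linarith) hf
        rw [hs.2.1, coib_sp_zero] at h1
        push_cast at h1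
        show ee ≤ (sp pI (x, t) - sp qI (x, t)) / 2
        linarith

end GW
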