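import Pool.Agent.Helper89.GW.Stmts

/-!
# Assembly
-/

set_option autoImplicit false

open scoped ContDiff Topology
open Set Filter

namespace GW

theorem fin_lag_congr {L L' : Set E} {p : E} {V : Set E} (hV : IsOpen V) (hp : p ∈ V)
    (h : ∀ q ∈ V, (q ∈ L' ↔ q ∈ L)) (hL : LagAt L p) : LagAt L' p := by
  obtain ⟨U, hU, hpU, G₁, G₂, h1, h2, h3, h4, h5⟩ := hL
  refine ⟨U ∩ V, hU.inter hV, ⟨hpU, hp⟩, G₁, G₂, h1.mono inter_subset_left,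
    h2.mono inter_subset_left, ?_, h4, ?_⟩
  · intro q hq
    rw [h q hq.2]
    exact h3 q hq.1
  · intro q hq
    exact h5 q hq.1

theorem fin_leg_lag {Λ : Set (E × ℝ)} {p : E} (h : LegAt Λ p) : LagAt (prj Λ) p := by
  obtain ⟨V, hV, hp, G₁, G₂, P, h1, h2, _, h4, h5, h6, _⟩ := h
  refine ⟨V, hV, hp, G₁, G₂, h1, h2, ?_, h5, h6⟩
  intro q hq
  constructor
  · rintro ⟨v, hv⟩
    have := (h4 q hq v).1 hv
    exact ⟨this.1, this.2.1⟩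
  · rintro ⟨g1, g2⟩
    exact ⟨P q, (h4 q hq _).2 ⟨g1, g2, rfl⟩⟩

theorem fin_dbl_congr {L L' : Set E} {d : E} {V : Set E} (hV : IsOpen V) (hd : d ∈ V)
    (h : ∀ q ∈ V, (q ∈ L' ↔ q ∈ L)) (hL : DblPt L d) : DblPt L' d := by
  obtain ⟨ψ, c, m₁, m₂, U, h1, h2, h3, h4, h5, h6, h7⟩ := hL
  refine ⟨ψ, c, m₁, m₂, U ∩ V, h1, h2, h3, h4.inter hV, ⟨h5, hd⟩, h6, ?_⟩
  intro q hq
  rw [h q hq.2]
  exact h7 q hq.1

theorem fin_surg3 (hSURG : ST_SURG) {L : Set E} (hL : IsCompact L) {e₁ e₂ e₃ : E}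
    (h1 : DblPt L e₁) (h2 : DblPt L e₂) (h3 : DblPt L e₃)
    (hreg : ∀ p ∈ L, p ≠ e₁ → p ≠ e₂ → p ≠ e₃ → LagAt L p)
    {U : Set E} (hU : IsOpen U) (hU1 : e₁ ∈ U) (hU2 : e₂ ∈ U) (hU3 : e₃ ∈ U)
    (h12 : e₁ ≠ e₂) (h13 : e₁ ≠ e₃) (h23 : e₂ ≠ e₃) :
    ∃ L' K : Set E, IsCompact L' ∧ IsCompact K ∧ K ⊆ U ∧ (∀ q, q ∉ K → (q ∈ L' ↔ q ∈ L)) ∧
      ∀ p ∈ L', LagAt L' p := by
  obtain ⟨A₁, B₁, oA₁, oB₁, hA₁, hB₁, hd₁⟩ := t2_separation h12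
  obtain ⟨A₂, B₂, oA₂, oB₂, hA₂, hB₂, hd₂⟩ := t2_separation h13
  obtain ⟨A₃, B₃, oA₃, oB₃, hA₃, hB₃, hd₃⟩ := t2_separation h23
  -- first surgery
  obtain ⟨L₁, K₁, cL₁, cK₁, kU₁, iK₁, eq₁, lag₁⟩ := hSURG L e₁ (U ∩ (A₁ ∩ A₂)) hL h1
    (hU.inter (oA₁.inter oA₂)) ⟨hU1, hA₁, hA₂⟩
  have n21 : e₂ ∉ K₁ := fun h => disjoint_left.1 hd₁ (kU₁ h).2.1 hB₁
  have n31 : e₃ ∉ K₁ := fun h => disjoint_left.1 hd₂ (kU₁ h).2.2 hB₂
  have h2' : DblPt L₁ e₂ := fin_dbl_congr cK₁.isClosed.isOpen_compl n21 (fun q hq => eq₁ q hq) h2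
  have h3' : DblPt L₁ e₃ := fin_dbl_congr cK₁.isClosed.isOpen_compl n31 (fun q hq => eq₁ q hq) h3
  -- second surgery
  obtain ⟨L₂, K₂, cL₂, cK₂, kU₂, iK₂, eq₂, lag₂⟩ := hSURG L₁ e₂ (U ∩ (B₁ ∩ A₃)) cL₁ h2'
    (hU.inter (oB₁.inter oA₃)) ⟨hU2, hB₁, hA₃⟩
  have n32 : e₃ ∉ K₂ := fun h => disjoint_left.1 hd₃ (kU₂ h).2.2 hB₃
  have h3'' : DblPt L₂ e₃ := fin_dbl_congr cK₂.isClosed.isOpen_compl n32 (fun q hq => eq₂ q hq) h3'
  obtain ⟨L₃, K₃, cL₃, cK₃, kU₃, iK₃, eq₃, lag₃⟩ := hSURG L₂ e₃ U cL₂ h3'' hU hU3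
  refine ⟨L₃, K₁ ∪ K₂ ∪ K₃, cL₃, (cK₁.union cK₂).union cK₃, ?_, ?_, ?_⟩
  · rintro q ((hq | hq) | hq)
    · exact (kU₁ hq).1
    · exact (kU₂ hq).1
    · exact kU₃ hq
  · intro q hq
    have q1 : q ∉ K₁ := fun h => hq (Or.inl (Or.inl h))
    have q2 : q ∉ K₂ := fun h => hq (Or.inl (Or.inr h))
    have q3 : q ∉ K₃ := fun h => hq (Or.inr h)
    rw [eq₃ q q3, eq₂ q q2, eq₁ q q1]
  · intro p hp
    by_cases q3 : p ∈ K₃
    · exact lag₃ p q3 hp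
    refine fin_lag_congr cK₃.isClosed.isOpen_compl q3 (fun q hq => eq₃ q hq) ?_
    have hp2 : p ∈ L₂ := (eq₃ p q3).1 hp
    by_cases q2 : p ∈ K₂
    · exact lag₂ p q2 hp2
    refine fin_lag_congr cK₂.isClosed.isOpen_compl q2 (fun q hq => eq₂ q hq) ?_
    have hp1 : p ∈ L₁ := (eq₂ p q2).1 hp2
    by_cases q1 : p ∈ K₁
    · exact lag₁ p q1 hp1
    refine fin_lag_congr cK₁.isClosed.isOpen_compl q1 (fun q hq => eq₁ q hq) ?_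
    refine hreg p ((eq₁ p q1).1 hp1) ?_ ?_ ?_
    · rintro rfl; exact q1 (interior_subset iK₁)
    · rintro rfl; exact q2 (interior_subset iK₂)
    · rintro rfl; exact q3 (interior_subset iK₃)

open Classical in
/-- the potential as a function on `E` -/
noncomputable def fpot (q : E) : ℝ := if h : ∃ v : ℝ, (q, v) ∈ Lh then h.choose else 0

theorem fpot_mem {q : E} (h : q ∈ prj Lh) : (q, fpot q) ∈ Lh := by
  have h' : ∃ v : ℝ, (q, v) ∈ Lh := h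
  unfold fpot
  rw [dif_pos h']
  exact h'.choose_spec

theorem d1_ne_d2 : d1 ≠ d2 := by
  intro h
  have := congrFun h 0
  simp [d1, d2] at this
  norm_num at this

theorem d1_ne_d3 : d1 ≠ d3 := by
  intro h
  have := congrFun h 0
  simp [d1, d3] at this
  try norm_num at this

theorem d2_ne_d3 : d2 ≠ d3 := by
  intro h
  have := congrFun h 0
  simp [d2, d3] at this
  try norm_num at this

theorem goal_of (hSOFT : ST_SOFT) (hCHART : ST_CHART) (hSURG : ST_SURG) (hBALL : ST_BALL)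
    (hLEG : ST_LEG) (hDP : ST_DP) (hSLAB : ST_SLAB) (hGP : ST_GP) (hCPT : ST_CPT) :
    ∃ L : Set E, IsCompact L ∧ (∀ p ∈ L, Frz L p) ∧ ∀ r : ℝ, 0 < r → ∃ φ : E → E, RelBall L r φ := by
  have hU : IsOpen {q : E | (95 / 8 : ℝ) < q 2} := isOpen_lt continuous_const (continuous_apply 2)
  obtain ⟨L, K, cL, cK, kU, hLK, hlag⟩ := fin_surg3 hSURG hCPT hDP.1 hDP.2.1 hDP.2.2
    (fun p hp n1 n2 n3 => fin_leg_lag (hLEG p hp n1 n2 n3)) hU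
    (by simp [d1]; norm_num) (by simp [d2]; norm_num) (by simp [d3]; norm_num)
    d1_ne_d2 d1_ne_d3 d2_ne_d3
  have hlow : ∀ q : E, q 2 < 95 / 8 → (q ∈ L ↔ q ∈ prj Lh) := by
    intro q hq
    refine hLK q fun h => ?_
    have := kU h
    simp only [mem_setOf_eq] at this
    linarith
  refine ⟨L, cL, fun p hp => hCHART L p hp (hlag p hp), ?_⟩
  refine hSOFT L fpot (45 / 4) (47 / 4) (by norm_num) cL ?_ ?_ ?_
  · intro p hp ht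
    have hp' : p ∈ prj Lh := (hlow p (by linarith)).1 hp
    have n1 : p ≠ d1 := by rintro rfl; simp [d1] at ht; norm_num at ht
    have n2 : p ≠ d2 := by rintro rfl; simp [d2] at ht; norm_num at ht
    have n3 : p ≠ d3 := by rintro rfl; simp [d3] at ht; norm_num at ht
    obtain ⟨V, hV, hpV, G₁, G₂, P, h1, h2, h3, h4, h5, h6, h7⟩ := hLEG p hp' n1 n2 n3
    refine ⟨V ∩ {q : E | q 2 < 95 / 8}, hV.inter (isOpen_lt (continuous_apply 2) continuous_const),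
      ⟨hpV, by simp only [mem_setOf_eq]; linarith⟩, P, h3.mono inter_subset_left, ?_⟩
    intro q hq hqV
    have hq' : q ∈ prj Lh := (hlow q hqV.2).1 hq
    obtain ⟨g1, g2, g3⟩ := (h4 q hqV.1 _).1 (fpot_mem hq')
    exact ⟨g3.symm, h7 q hqV.1 g1 g2⟩
  · intro p hp q hq t0 t1 e0 e1 e2 hw
    have hp' : p ∈ prj Lh := (hlow p (by linarith)).1 hp
    have hq' : q ∈ prj Lh := (hlow q (by linarith)).1 hq
    exact hSLAB _ (fpot_mem hp') _ (fpot_mem hq') t0 t1 e0 e1 e2 hw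
  · obtain ⟨ψ, c, U, hψ, oU, hcU, hgr, hlt⟩ := hGP
    obtain ⟨r, χ, hr, hball, hχ⟩ := hBALL L ψ c U hψ oU hcU (by
      intro q hq
      rw [hlow q (by linarith [hlt q hq])]
      exact hgr q hq)
    exact ⟨r, χ, hr, hball, fun x hx => hlt _ (hχ x hx)⟩

end GW
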