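import Pool.Agent.Helper89.GW.Stmts

set_option autoImplicit false

open scoped ContDiff Topology
open Set Filter

namespace GW

theorem reg_Jn_congr {φ φ' u u' : ℝ × ℝ → ℝ} {a : E × ℝ} (h : Same φ φ' (pr a.1))
    (h' : Same u u' (pr a.1)) : a ∈ Jn φ u ↔ a ∈ Jn φ' u' := by
  obtain ⟨h1, h2, h3⟩ := h
  obtain ⟨h4, h5, h6⟩ := h'
  simp only [Jn, mem_setOf_eq, h1, h2, h3, h4, h5, h6]

theorem reg_Gr_congr {φ φ' : ℝ × ℝ → ℝ} {a : E × ℝ} (h : Same φ φ' (pr a.1)) :
    a ∈ Gr φ ↔ a ∈ Gr φ' := by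
  obtain ⟨h1, h2, h3⟩ := h
  simp only [Gr, mem_setOf_eq, h1, h2, h3]

theorem reg_Jn_empty (hHHF : ST_HHF) {φ u : ℝ × ℝ → ℝ} {a : E × ℝ} (h : u (pr a.1) = 0) :
    a ∉ Jn φ u := by
  rintro ⟨s, hs, -⟩
  rw [h, zero_div, hHHF.2.1 0 (by norm_num)] at hs
  nlinarith [sq_nonneg s]

theorem reg_or4 (p q r t : Prop) : ((p ∨ q) ∨ r ∨ t) ↔ ((p ∨ r) ∨ q ∨ t) := by tauto

theorem reg_same_refl (u : ℝ × ℝ → ℝ) (z : ℝ × ℝ) : Same u u z := ⟨rfl, rfl, rfl⟩

theorem reg_same_symm {u v : ℝ × ℝ → ℝ} {z : ℝ × ℝ} (h : Same u v z) : Same v u z :=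
  ⟨h.1.symm, h.2.1.symm, h.2.2.symm⟩

theorem reg_same_trans {u v w : ℝ × ℝ → ℝ} {z : ℝ × ℝ} (h : Same u v z) (h' : Same v w z) :
    Same u w z :=
  ⟨h.1.trans h'.1, h.2.1.trans h'.2.1, h.2.2.trans h'.2.2⟩

/-- linear combination of first order data -/
theorem reg_same_comb {f g f' g' : ℝ × ℝ → ℝ} (a b k : ℝ) {z : ℝ × ℝ}
    (hf : Differentiable ℝ f) (hg : Differentiable ℝ g) (hf' : Differentiable ℝ f')
    (hg' : Differentiable ℝ g') (h : Same f f' z) (h' : Same g g' z) :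
    Same (fun z => a * f z + b * g z + k) (fun z => a * f' z + b * g' z + k) z := by
  have key : ∀ (f g : ℝ × ℝ → ℝ), Differentiable ℝ f → Differentiable ℝ g →
      fderiv ℝ (fun z => a * f z + b * g z + k) z = a • fderiv ℝ f z + b • fderiv ℝ g z := by
    intro f g hf hg
    have := (((hf z).hasFDerivAt.const_mul a).add ((hg z).hasFDerivAt.const_mul b)).add_const k
    exact this.fderiv
  obtain ⟨h1, h2, h3⟩ := h
  obtain ⟨h4, h5, h6⟩ := h'
  unfold dX at h2 h5
  unfold dT at h3 h6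
  refine ⟨by simp only [h1, h4], ?_, ?_⟩
  · unfold dX
    rw [key f g hf hg, key f' g' hf' hg']
    simp [h2, h5]
  · unfold dT
    rw [key f g hf hg, key f' g' hf' hg']
    simp [h3, h6]

theorem reg_band (hCOI : ST_COI) (hHHF : ST_HHF) (a : E × ℝ)
    (hz : (13 / 4 < (pr a.1).2 ∧ (pr a.1).2 < 15 / 4) ∨
      (81 / 4 < (pr a.1).2 ∧ (pr a.1).2 < 83 / 4)) :
    a ∈ Jn (fun _ => 0) uA ↔ a ∈ Jn (fun _ => 0) uA' ∨ a ∈ Jn mR uB := by
  have h := hCOI.1 (pr a.1) hz
  by_cases hx : (pr a.1).1 < -9 / 4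
  · obtain ⟨h1, h2, h3⟩ := h.1 hx
    have e1 : a ∈ Jn (fun _ => 0) uA ↔ a ∈ Jn mR uB := reg_Jn_congr (reg_same_symm h3) h1
    have e2 : a ∉ Jn (fun _ => 0) uA' := reg_Jn_empty hHHF h2.1
    rw [e1]
    exact ⟨Or.inr, fun h => h.resolve_left e2⟩
  · obtain ⟨h1, h2⟩ := h.2 (by linarith)
    have e1 : a ∈ Jn (fun _ => 0) uA ↔ a ∈ Jn (fun _ => 0) uA' :=
      reg_Jn_congr (reg_same_refl _ _) h1
    have e2 : a ∉ Jn mR uB := reg_Jn_empty hHHF h2.1
    rw [e1]
    exact ⟨Or.inl, fun h => h.resolve_right e2⟩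

theorem reg_smooth (hDAT : ST_DAT) (hSPD : ST_SPD) :
    ContDiff ℝ ∞ (sp aI) ∧ ContDiff ℝ ∞ (sp aI') ∧ ContDiff ℝ ∞ (sp bI) ∧
    ContDiff ℝ ∞ (sp mI) ∧ ContDiff ℝ ∞ (sp pI) ∧ ContDiff ℝ ∞ (sp qI) ∧
    ContDiff ℝ ∞ (sp xI) := by
  obtain ⟨⟨h1, h2, h3, h4, h5, h6, h7⟩, -⟩ := hDAT
  exact ⟨(hSPD _ h1).1, (hSPD _ h2).1, (hSPD _ h3).1, (hSPD _ h4).1, (hSPD _ h5).1,
    (hSPD _ h6).1, (hSPD _ h7).1⟩

theorem reg_ring (hCOI : ST_COI) (hJFUL : ST_JFUL) (hDAT : ST_DAT)
    (hSPD : ST_SPD) (a : E × ℝ) (h2 : O2 (pr a.1)) (h3 : O3 (pr a.1)) :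
    (a ∈ Jn (fun _ => 0) uA' ∨ a ∈ Jn mR uB) ↔
      (a ∈ Jn phX uX ∨ a ∈ Gr psA ∨ a ∈ Gr psB) := by
  obtain ⟨sA, sA', sB, sM, sP, sQ, sX⟩ := reg_smooth hDAT hSPD
  obtain ⟨c1, c2, c3, c4, c5⟩ := hCOI.2 (pr a.1) h3
  obtain ⟨c6, c7, c8⟩ := c5 h2
  have sm : ContDiff ℝ ∞ mR := sM.add (contDiff_const.mul sX)
  have sph : ContDiff ℝ ∞ phX := (sP.add sQ).div_const 2
  have sux : ContDiff ℝ ∞ uX := (sP.sub sQ).div_const 2
  have c1' : ee ≤ uA' (pr a.1) := by rw [← c1.1]; exact c3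
  rw [hJFUL (fun _ => 0) uA' a contDiff_const sA' c1', hJFUL mR uB a sm sB c4,
    hJFUL phX uX a sph sux c8]
  have D : ∀ {f : ℝ × ℝ → ℝ}, ContDiff ℝ ∞ f → Differentiable ℝ f :=
    fun h => h.differentiable (by simp)
  have e1 : a ∈ Gr (fun z => 0 + uA' z - kk) ↔ a ∈ Gr (fun z => phX z + uX z - kk) := by
    apply reg_Gr_congr
    have E1 : (fun z => 0 + uA' z - kk) = fun z => 1 * sp aI' z + 0 * sp aI' z + (-kk) := by
      funext z; simp only [uA']; ring
    have E2 : (fun z => phX z + uX z - kk) = fun z => 1 * sp pI z + 0 * sp aI' z + (-kk) := by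
      funext z; simp only [phX, uX]; ring
    rw [E1, E2]
    refine reg_same_comb 1 0 (-kk) (D sA') (D sA') (D sP) (D sA') ?_ (reg_same_refl _ _)
    exact reg_same_trans (reg_same_symm c1) (reg_same_symm c6)
  have e2 : a ∈ Gr (fun z => 0 - uA' z + kk) ↔ a ∈ Gr psA := by
    apply reg_Gr_congr
    have E1 : (fun z => 0 - uA' z + kk) = fun z => (-1) * sp aI' z + 0 * sp aI' z + kk := by
      funext z; simp only [uA']; ring
    have E2 : psA = fun z => (-1) * sp aI z + 0 * sp aI' z + kk := by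
      funext z; simp only [psA]; ring
    rw [E1, E2]
    exact reg_same_comb (-1) 0 kk (D sA') (D sA') (D sA) (D sA') (reg_same_symm c1)
      (reg_same_refl _ _)
  have sm2 : Differentiable ℝ (fun z => sp mI z + 2 * kk) := (D sM).add_const _
  have e3 : a ∈ Gr (fun z => mR z + uB z - kk) ↔ a ∈ Gr (fun z => phX z - uX z + kk) := by
    apply reg_Gr_congr
    have E1 : (fun z => mR z + uB z - kk) = fun z => 1 * mR z + 1 * sp bI z + (-kk) := by
      funext z; simp only [uB]; ring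
    have E2 : (fun z => phX z - uX z + kk) = fun z => 1 * sp qI z + 0 * sp bI z + kk := by
      funext z; simp only [phX, uX]; ring
    rw [E1, E2]
    have t1 := reg_same_comb 1 1 (-kk) (D sm) (D sB) sm2 (D sB) c2 (reg_same_refl (sp bI) _)
    have t2 := reg_same_comb 1 0 kk (D sQ) (D sB) ((D sM).add (D sB)) (D sB) c7
      (reg_same_refl (sp bI) _)
    refine reg_same_trans t1 ?_
    have E3 : (fun z => 1 * (sp mI z + 2 * kk) + 1 * sp bI z + (-kk)) =
        fun z => 1 * (sp mI z + sp bI z) + 0 * sp bI z + kk := by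
      funext z; ring
    rw [E3]
    exact reg_same_symm t2
  have e4 : a ∈ Gr (fun z => mR z - uB z + kk) ↔ a ∈ Gr psB := by
    apply reg_Gr_congr
    have E1 : (fun z => mR z - uB z + kk) = fun z => 1 * mR z + (-1) * sp bI z + kk := by
      funext z; simp only [uB]; ring
    rw [E1]
    refine reg_same_trans (reg_same_comb 1 (-1) kk (D sm) (D sB) sm2 (D sB) c2
      (reg_same_refl (sp bI) _)) ?_
    have E3 : (fun z => 1 * (sp mI z + 2 * kk) + (-1) * sp bI z + kk) = psB := by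
      funext z; simp only [psB]; ring
    rw [E3]
    exact reg_same_refl _ _
  rw [e1, e2, e3, e4]
  exact reg_or4 _ _ _ _

theorem st_REG (hCOI : ST_COI) (hJFUL : ST_JFUL) (hHHF : ST_HHF) (hDAT : ST_DAT)
    (hSPD : ST_SPD) : ST_REG := by
  refine ⟨?_, ?_, ?_, ?_⟩
  · intro z
    unfold O1 O2 O3
    by_cases h1 : z.2 < 15 / 4
    · exact Or.inl (Or.inl h1)
    by_cases h2 : 81 / 4 < z.2
    · exact Or.inl (Or.inr h2)
    push Not at h1 h2
    right
    by_cases h3 : 15 / 4 ≤ z.1 ∧ z.1 ≤ 29 / 4 ∧ 35 / 4 ≤ z.2 ∧ z.2 ≤ 61 / 4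
    · right
      exact ⟨by linarith, by linarith, by linarith, by linarith⟩
    · left
      exact ⟨by linarith, by linarith, h3⟩
  · intro a ha
    have key : D2 (pr a.1) → (a ∈ Jn (fun _ => 0) uA' ∨ a ∈ Jn mR uB) →
        a ∈ Jn (fun _ => 0) uA := by
      intro hd h
      refine (reg_band hCOI hHHF a ?_).2 h
      unfold O1 at ha
      unfold D2 at hd
      rcases ha with ha | ha
      · left; constructor <;> linarith
      · right; constructor <;> linarith
    constructor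
    · rintro (⟨_, h⟩ | ⟨hd, h⟩ | ⟨hd, _⟩)
      · exact h
      · exact key hd h
      · exfalso
        unfold O1 at ha
        unfold D3 at hd
        rcases ha with ha | ha <;> linarith
    · intro h
      by_cases hd : D1 (pr a.1)
      · exact Or.inl ⟨hd, h⟩
      · unfold D1 at hd
        push Not at hd
        have hD2 : D2 (pr a.1) := by
          refine ⟨by linarith, by linarith, ?_⟩
          rintro ⟨_, _, q1, q2⟩
          unfold O1 at ha
          rcases ha with ha | ha <;> linarith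
        refine Or.inr (Or.inl ⟨hD2, (reg_band hCOI hHHF a ?_).1 h⟩)
        unfold O1 at ha
        rcases ha with ha | ha
        · left; constructor <;> linarith
        · right; constructor <;> linarith
  · intro a ha
    constructor
    · rintro (⟨hd, h⟩ | ⟨_, h⟩ | ⟨hd, h⟩)
      · refine (reg_band hCOI hHHF a ?_).1 h
        unfold D1 at hd
        unfold O2 at ha
        rcases hd with hd | hd
        · left; constructor <;> linarith
        · right; constructor <;> linarith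
      · exact h
      · have h3 : O3 (pr a.1) := by
          unfold D3 at hd
          refine ⟨by linarith, by linarith, by linarith, by linarith⟩
        exact (reg_ring hCOI hJFUL hDAT hSPD a ha h3).2 h
    · intro h
      by_cases hd : D1 (pr a.1)
      · refine Or.inl ⟨hd, (reg_band hCOI hHHF a ?_).2 h⟩
        unfold D1 at hd
        unfold O2 at ha
        rcases hd with hd | hd
        · left; constructor <;> linarith
        · right; constructor <;> linarith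
      · unfold D1 at hd
        push Not at hd
        by_cases hi : 7 / 2 < (pr a.1).1 ∧ (pr a.1).1 < 15 / 2 ∧ 17 / 2 < (pr a.1).2 ∧
            (pr a.1).2 < 31 / 2
        · have hD3 : D3 (pr a.1) := ⟨hi.1.le, hi.2.1.le, hi.2.2.1.le, hi.2.2.2.le⟩
          have h3 : O3 (pr a.1) := ⟨by linarith, by linarith, by linarith, by linarith⟩
          exact Or.inr (Or.inr ⟨hD3, (reg_ring hCOI hJFUL hDAT hSPD a ha h3).1 h⟩)
        · exact Or.inr (Or.inl ⟨⟨hd.1.le, hd.2.le, hi⟩, h⟩)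
  · intro a ha
    have hO2 : D2 (pr a.1) → O2 (pr a.1) := by
      intro hd
      unfold D2 at hd
      unfold O3 at ha
      refine ⟨by linarith, by linarith, ?_⟩
      rintro ⟨q1, q2, q3, q4⟩
      exact hd.2.2 ⟨by linarith, by linarith, by linarith, by linarith⟩
    constructor
    · rintro (⟨hd, _⟩ | ⟨hd, h⟩ | ⟨_, h⟩)
      · exfalso
        unfold D1 at hd
        unfold O3 at ha
        rcases hd with hd | hd <;> linarith
      · exact (reg_ring hCOI hJFUL hDAT hSPD a (hO2 hd) ha).1 h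
      · exact h
    · intro h
      by_cases hd : D3 (pr a.1)
      · exact Or.inr (Or.inr ⟨hd, h⟩)
      · have hD2 : D2 (pr a.1) := by
          unfold O3 at ha
          refine ⟨by linarith, by linarith, ?_⟩
          rintro ⟨q1, q2, q3, q4⟩
          exact hd ⟨q1.le, q2.le, q3.le, q4.le⟩
        exact Or.inr (Or.inl ⟨hD2, (reg_ring hCOI hJFUL hDAT hSPD a (hO2 hD2) ha).2 h⟩)

end GW
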