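import Pool.Agent.Helper1.GW.MU
import Pool.Agent.Helper1.GW.QUAD
import Pool.Agent.Helper11.GW.DP
import Pool.Agent.Helper17.GW.HAMF
import Pool.Agent.Helper17.GW.LAM
import Pool.Agent.Helper18.GW.SIGN
import Pool.Agent.Helper18.GW.SREF
import Pool.Agent.Helper22.GW.NP2A
import Pool.Agent.Helper22.GW.NP2B
import Pool.Agent.Helper25.GW.CHART
import Pool.Agent.Helper28.GW.CINF
import Pool.Agent.Helper28.GW.DIFF
import Pool.Agent.Helper35.GW.BALL
import Pool.Agent.Helper35.GW.JFUL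
import Pool.Agent.Helper37.GW.NP2AB
import Pool.Agent.Helper38.GW.FEXT
import Pool.Agent.Helper39.GW.SCAL
import Pool.Agent.Helper41.GW.DEP
import Pool.Agent.Helper41.GW.LINO
import Pool.Agent.Helper46.GW.GLUE
import Pool.Agent.Helper46.GW.GP
import Pool.Agent.Helper46.GW.PULL
import Pool.Agent.Helper50.GW.JCL
import Pool.Agent.Helper50.GW.SLOC
import Pool.Agent.Helper59.GW.CPT
import Pool.Agent.Helper60.GW.GLEG
import Pool.Agent.Helper60.GW.HAND
import Pool.Agent.Helper63.GW.HEXT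
import Pool.Agent.Helper68.GW.PHI
import Pool.Agent.Helper7.GW.SPD
import Pool.Agent.Helper71.GW.SURG
import Pool.Agent.Helper74.GW.NP3
import Pool.Agent.Helper74.GW.SLAB
import Pool.Agent.Helper76.GW.LEG
import Pool.Agent.Helper78.GW.JLEG
import Pool.Agent.Helper8.GW.BDD
import Pool.Agent.Helper8.GW.ELEM
import Pool.Agent.Helper8.GW.NP1
import Pool.Agent.Helper81.GW.DAT
import Pool.Agent.Helper81.GW.SLIN
import Pool.Agent.Helper81.GW.UNIQ
import Pool.Agent.Helper89.GW.QDAT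
import Pool.Agent.Helper89.GW.COI
import Pool.Agent.Helper89.GW.REG
import Pool.Agent.Helper89.GW.FIN
import Pool.Agent.Helper91.GW.SOFT
import Pool.Agent.Helper95.GW.HHF

/-!
# All modules together
-/

set_option autoImplicit false

open Set

namespace GW

theorem all_SOFT : ST_SOFT :=
  have hDIFF : ST_DIFF := st_DIFF st_UNIQ st_DEP st_LINO
  have hHAMF : ST_HAMF := st_HAMF st_UNIQ st_BDD hDIFF (st_CINF hDIFF)
  st_SOFT (st_FEXT st_GLUE) (st_HEXT st_GLUE st_PHI) st_SCAL hHAMF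

theorem all_LAM : ST_LAM := st_LAM st_MU
theorem all_ELEM : ST_ELEM := st_ELEM all_LAM
theorem all_SPD : ST_SPD := st_SPD all_LAM
theorem all_SIGN : ST_SIGN := st_SIGN all_SPD all_ELEM all_LAM
theorem all_SLOC : ST_SLOC := st_SLOC all_SPD all_ELEM all_LAM
theorem all_SLIN : ST_SLIN := st_SLIN all_SPD
theorem all_SREF : ST_SREF := st_SREF all_SPD all_LAM
theorem all_QUAD : ST_QUAD := st_QUAD all_SPD all_LAM
theorem all_JFUL : ST_JFUL := st_JFUL st_HHF
theorem all_JCL : ST_JCL := st_JCL st_HHF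
theorem all_JLEG : ST_JLEG := st_JLEG st_HHF
theorem all_COI : ST_COI := st_COI all_LAM all_ELEM st_DAT all_SLOC all_SPD all_SIGN all_SLIN
theorem all_REG (h : ST_COI) : ST_REG := st_REG h all_JFUL st_HHF st_DAT all_SPD
theorem all_NP3 : ST_NP3 := st_NP3 st_DAT all_ELEM all_SIGN all_SLIN all_SREF st_HHF all_SPD
theorem all_NP2AB : ST_NP2AB := st_NP2AB st_DAT all_ELEM all_SIGN all_SLIN all_SREF all_QUAD
  st_QDAT st_MU st_HHF all_SPD all_LAM
theorem all_LEG (h : ST_COI) : ST_LEG := st_LEG (all_REG h) st_GLEG all_JLEG all_JCL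
  (st_NP1 st_DAT all_ELEM all_SIGN all_SREF)
  (st_NP2A st_DAT all_ELEM all_SIGN all_SREF all_QUAD st_QDAT st_MU)
  (st_NP2B st_DAT all_ELEM all_SIGN all_SREF all_QUAD st_QDAT st_MU)
  all_NP2AB all_NP3 all_QUAD st_QDAT all_SREF st_HHF st_DAT all_SPD st_MU
theorem all_DP (h : ST_COI) : ST_DP := st_DP (all_REG h) all_QUAD st_QDAT st_MU all_JFUL st_HHF
  st_DAT all_SPD all_SIGN all_SLIN all_SREF
theorem all_SLAB (h : ST_COI) : ST_SLAB := st_SLAB (all_REG h) all_SIGN all_SLIN all_ELEM st_DAT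
  st_HHF all_NP3 all_SPD all_LAM
theorem all_GP (h : ST_COI) : ST_GP := st_GP (all_REG h) all_SIGN st_DAT all_JFUL all_SPD st_HHF

theorem all_goal (h : ST_COI) :
    ∃ L : Set E, IsCompact L ∧ (∀ p ∈ L, Frz L p) ∧
      ∀ r : ℝ, 0 < r → ∃ φ : E → E, RelBall L r φ :=
  goal_of all_SOFT st_CHART (st_SURG st_HAND st_PULL) st_BALL (all_LEG h) (all_DP h)
    (all_SLAB h) (all_GP h) (st_CPT all_JCL st_GLEG all_SPD st_DAT)

end GW
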