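import Pool.Agent.Helper89.GW.Defs

/-!
# The integer arrays and the finite checks

Rows `0..12` of the tables are the rows `k = 0..12` (row `24 - k` equals row `k`), columns
`-7..13`.
-/

set_option autoImplicit false

namespace GW

def rowsA : List (List ℤ) :=
  [[0, 0, 0, 0, 0, 0, 0, 0, 0, 0, 0, 0, 0, 0, 0, 0, 0, 0, 0, 0, 0],
   [0, 288, 290, 292, 294, 296, 298, 300, 298, 296, 294, 292, 290, 288, 286, 284, 282, 280, 278, 276, 0],
   [0, 287, 289, 291, 293, 295, 298, 301, 298, 295, 293, 291, 289, 287, 285, 283, 281, 279, 277, 275, 0],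
   [0, 270, 288, 270, 0, 0, 298, 302, 298, 0, 0, 10, 20, 30, 40, 50, 70, 258, 276, 258, 0],
   [0, 270, 287, 270, 0, 0, 298, 303, 298, 0, 0, 10, 20, 30, 40, 50, 70, 258, 275, 258, 0],
   [0, 270, 286, 270, 0, 0, 298, 304, 298, 1, 1, 10, 20, 30, 40, 50, 70, 258, 274, 258, 0],
   [0, 270, 285, 270, 0, 0, 298, 305, 298, 2, 2, 10, 20, 30, 40, 50, 70, 258, 273, 258, 0],
   [0, 270, 284, 270, 0, 0, 298, 306, 298, 3, 3, 10, 20, 30, 40, 50, 70, 258, 272, 258, 0],
   [0, 270, 283, 270, 0, 0, 298, 307, 298, 4, 4, 10, 20, 30, 40, 50, 70, 258, 271, 258, 0],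
   [0, 270, 282, 270, 0, 0, 298, 308, 298, 5, 5, 10, 20, 30, 40, 50, 70, 258, 270, 258, 0],
   [0, 270, 281, 270, 0, 0, 298, 309, 298, 6, 6, 11, 21, 31, 41, 50, 71, 258, 269, 258, 0],
   [0, 270, 280, 270, 0, 0, 298, 312, 320, 325, 330, 336, 320, 180, 176, 184, 206, 258, 268, 258, 0],
   [0, 268, 278, 268, 0, 0, 298, 312, 320, 325, 330, 336, 320, 180, 175, 182, 204, 256, 266, 256, 0]]

def rowsB : List (List ℤ) :=
  [[0, 0, 0, 0, 0, 0, 0, 0, 0, 0, 0, 0, 0, 0, 0, 0, 0, 0, 0, 0, 0],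
   [0, 0, 0, 0, 0, 0, 0, 0, 0, 0, 0, 0, 0, 0, 0, 0, 0, 0, 0, 0, 0],
   [0, 0, 0, 0, 0, 0, 0, 0, 0, 0, 0, 0, 0, 0, 0, 0, 0, 0, 0, 0, 0],
   [0, 270, 288, 270, 0, 0, 0, 0, 0, 0, 0, 0, 0, 0, 0, 0, 0, 0, 0, 0, 0],
   [0, 270, 287, 270, 0, 0, 0, 0, 0, 0, 0, 0, 0, 0, 0, 0, 0, 0, 0, 0, 0],
   [0, 270, 286, 270, 120, 115, 110, 105, 100, 95, 0, 0, 0, 0, 0, 0, 0, 0, 0, 0, 0],
   [0, 270, 285, 270, 120, 115, 110, 105, 100, 95, 0, 0, 0, 0, 0, 0, 0, 0, 0, 0, 0],
   [0, 270, 284, 270, 120, 115, 110, 105, 100, 95, 60, 50, 40, 30, 20, 10, 0, 0, 0, 0, 0],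
   [0, 270, 283, 270, 120, 115, 110, 105, 100, 95, 60, 50, 40, 30, 20, 10, 0, 0, 0, 0, 0],
   [0, 270, 282, 270, 120, 115, 110, 105, 100, 95, 60, 50, 40, 30, 20, 10, 0, 0, 0, 0, 0],
   [0, 270, 281, 270, 120, 115, 110, 105, 100, 95, 60, 50, 40, 30, 20, 10, 0, 0, 0, 0, 0],
   [0, 270, 280, 270, 262, 260, 258, 256, 254, 252, 250, 240, 220, 20, 20, 10, 0, 0, 0, 0, 0],
   [0, 268, 278, 268, 262, 260, 258, 256, 254, 252, 250, 240, 220, 20, 19, 10, 0, 0, 0, 0, 0]]

def rowsBB : List (List ℤ) :=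
  [[0, 0, 0, 0, 0, 0, 0, 0, 0, 0, 0, 0, 0, 0, 0, 0, 0, 0, 0, 0, 0],
   [0, 0, 0, 0, 0, 0, 0, 0, 0, 0, 0, 0, 0, 0, 0, 0, 0, 0, 0, 0, 0],
   [0, 0, 0, 0, 0, 0, 0, 0, 0, 0, 0, 0, 0, 0, 0, 0, 0, 0, 0, 0, 0],
   [0, 0, 0, 0, 0, 0, 400, 800, 1200, 1600, 2000, 2040, 2060, 2080, 2100, 2110, 2110, 2110, 2110, 2110, 2110],
   [0, 0, 0, 0, 0, 0, 400, 800, 1200, 1600, 2000, 2040, 2060, 2080, 2100, 2110, 2110, 2110, 2110, 2110, 2110],
   [0, 0, 0, 0, -2880, -2480, -2080, -1680, -1280, -880, -480, -440, -420, -400, -380, -370, -370, -370, -370, -370, -370],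
   [0, 0, 0, 0, -2780, -2380, -1980, -1580, -1180, -780, -380, -340, -320, -300, -280, -270, -270, -270, -270, -270, -270],
   [0, 0, 0, 0, -2680, -2280, -1880, -1480, -1080, -680, -280, -240, -220, -200, -180, -170, -170, -170, -170, -170, -170],
   [0, 0, 0, 0, -2580, -2180, -1780, -1380, -980, -580, -180, -140, -120, -100, -80, -70, -70, -70, -70, -70, -70],
   [0, 0, 0, 0, -2480, -2080, -1680, -1280, -880, -480, -80, -40, -20, 0, 20, 30, 30, 30, 30, 30, 30],
   [0, 0, 0, 0, -2479, -2079, -1679, -1279, -879, -479, -79, -39, -19, 1, 21, 31, 31, 31, 31, 31, 31],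
   [0, 0, 0, 0, -2344, -1944, -1544, -1144, -744, -344, 56, 96, 116, 136, 156, 166, 166, 166, 166, 166, 166],
   [0, 0, 0, 0, -2344, -1944, -1544, -1144, -744, -344, 56, 96, 116, 136, 156, 166, 166, 166, 166, 166, 166]]

def rowsP : List (List ℤ) :=
  [[0, 0, 0, 0, 0, 0, 0, 0, 0, 0, 0, 0, 0, 0, 0, 0, 0, 0, 0, 0, 0],
   [0, 288, 290, 292, 294, 296, 298, 300, 298, 296, 294, 292, 290, 288, 286, 284, 282, 280, 278, 276, 0],
   [0, 287, 289, 291, 293, 295, 298, 301, 298, 295, 293, 291, 289, 287, 285, 283, 281, 279, 277, 275, 0],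
   [0, 270, 288, 270, 0, 0, 298, 302, 298, 0, 0, 10, 20, 30, 40, 50, 70, 258, 276, 258, 0],
   [0, 270, 287, 270, 0, 0, 298, 303, 298, 0, 0, 10, 20, 30, 40, 50, 70, 258, 275, 258, 0],
   [0, 270, 286, 270, 0, 0, 298, 304, 298, 1, 1, 10, 20, 30, 40, 50, 70, 258, 274, 258, 0],
   [0, 270, 285, 270, 0, 0, 298, 305, 298, 2, 2, 10, 20, 30, 40, 50, 70, 258, 273, 258, 0],
   [0, 270, 284, 270, 0, 0, 298, 306, 298, 3, 3, 10, 20, 30, 40, 50, 70, 258, 272, 258, 0],
   [0, 270, 283, 270, 0, 0, 298, 307, 298, 4, 4, 10, 20, 30, 40, 50, 70, 258, 271, 258, 0],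
   [0, 270, 282, 270, 0, 0, 298, 308, 298, 5, 5, 10, 20, 30, 40, 50, 70, 258, 270, 258, 0],
   [0, 270, 281, 270, 0, 0, 298, 309, 298, 6, 6, 11, 21, 31, 41, 50, 71, 258, 269, 258, 0],
   [0, 270, 280, 270, 0, 0, 298, 312, 320, 325, 330, 336, 354, 171, 176, 184, 206, 258, 268, 258, 0],
   [0, 268, 278, 268, 0, 0, 298, 312, 320, 325, 330, 336, 354, 170, 175, 182, 204, 256, 266, 256, 0]]

def rowsQ : List (List ℤ) :=
  [[0, 0, 0, 0, 0, 0, 0, 0, 0, 0, 0, 0, 0, 0, 0, 0, 0, 0, 0, 0, 0],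
   [0, 0, 0, 0, 0, 0, 0, 0, 0, 0, 0, 0, 0, 0, 0, 0, 0, 0, 0, 0, 0],
   [0, 0, 0, 0, 0, 0, 0, 0, 0, 0, 0, 0, 0, 0, 0, 0, 0, 0, 0, 0, 0],
   [0, 270, 288, 270, 0, 0, 400, 800, 1200, 1600, 2000, 2040, 2060, 2080, 2100, 2110, 2110, 2110, 2110, 2110, 2110],
   [0, 270, 287, 270, 0, 0, 400, 800, 1200, 1600, 2000, 2040, 2060, 2080, 2100, 2110, 2110, 2110, 2110, 2110, 2110],
   [0, 270, 286, 270, -2760, -2365, -1970, -1575, -1180, -785, -480, -440, -420, -400, -380, -370, -370, -370, -370, -370, -370],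
   [0, 270, 285, 270, -2660, -2265, -1870, -1475, -1080, -685, -380, -340, -320, -300, -280, -270, -270, -270, -270, -270, -270],
   [0, 270, 284, 270, -2560, -2165, -1770, -1375, -980, -585, -220, -190, -180, -170, -160, -160, -170, -170, -170, -170, -170],
   [0, 270, 283, 270, -2460, -2065, -1670, -1275, -880, -485, -120, -90, -80, -70, -60, -60, -70, -70, -70, -70, -70],
   [0, 270, 282, 270, -2360, -1965, -1570, -1175, -780, -385, -20, 10, 20, 30, 40, 40, 30, 30, 30, 30, 30],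
   [0, 270, 281, 270, -2359, -1964, -1569, -1174, -779, -384, -19, 11, 21, 31, 41, 41, 31, 31, 31, 31, 31],
   [0, 270, 280, 270, -2082, -1684, -1286, -888, -490, -92, 306, 336, 354, 171, 176, 176, 166, 166, 166, 166, 166],
   [0, 268, 278, 268, -2082, -1684, -1286, -888, -490, -92, 306, 336, 354, 170, 175, 176, 166, 166, 166, 166, 166]]

/-- entry of a table (symmetric in `k ↦ 24 - k`, zero outside `[-7,13] × [0,24]`) -/
def tg (T : List (List ℤ)) (c k : ℤ) : ℤ :=
  if -7 ≤ c ∧ c ≤ 13 ∧ 0 ≤ k ∧ k ≤ 24 then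
    (T.getD (min k (24 - k)).toNat []).getD (c + 7).toNat 0 else 0

/-- the ribbon `A` -/
def aI : ℤ → ℤ → ℤ := tg rowsA
/-- the right part of the ribbon `A` (used for rows `≥ 3`) -/
def aI' (c k : ℤ) : ℤ := if c ≤ -2 then 0 else tg rowsA c k
/-- half the height of the ribbon `B` -/
def bI : ℤ → ℤ → ℤ := tg rowsB
/-- the mean of the ribbon `B` -/
def mI : ℤ → ℤ → ℤ := tg rowsBB
/-- the sheet `A+` near the hole -/
def pI : ℤ → ℤ → ℤ := tg rowsP
/-- the sheet `B+` near the hole -/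
def qI : ℤ → ℤ → ℤ := tg rowsQ
/-- the place where the mean of `B` is shifted by the constant `2 kk` -/
def xI (c k : ℤ) : ℤ := if -3 ≤ c ∧ c ≤ 13 ∧ 5 ≤ k ∧ k ≤ 19 then 1 else 0

/-! ### Boolean sign conditions on an element `X × T` -/

/-- all active slopes are `≥ 0`, one is `> 0` -/
def sPos (z : ℤ → ℤ → ℤ) (X T : El) : Bool :=
  X.iv.all (fun c => T.nd.all fun k => decide (z c k ≤ z (c + 1) k)) &&
    X.iv.any (fun c => T.nd.any fun k => decide (z c k < z (c + 1) k))

/-- all active rates are `≥ 0`, one is `> 0` -/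
def rPos (z : ℤ → ℤ → ℤ) (X T : El) : Bool :=
  X.nd.all (fun c => T.iv.all fun k => decide (z c k ≤ z c (k + 1))) &&
    X.nd.any (fun c => T.iv.any fun k => decide (z c k < z c (k + 1)))

def sNeg (z : ℤ → ℤ → ℤ) (X T : El) : Bool := sPos (fun c k => -z c k) X T
def rNeg (z : ℤ → ℤ → ℤ) (X T : El) : Bool := rPos (fun c k => -z c k) X T

/-- all active nodes vanish -/
def absent (z : ℤ → ℤ → ℤ) (X T : El) : Bool :=
  X.nd.all (fun c => T.nd.all fun k => decide (z c k = 0))

/-- some core node is positive -/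
def full (z : ℤ → ℤ → ℤ) (X T : El) : Bool :=
  X.core.any (fun c => T.core.any fun k => decide (0 < z c k))

/-- all functions of the list have a slope of the same sign -/
def sSame (l : List (ℤ → ℤ → ℤ)) (X T : El) : Bool :=
  l.all (fun z => sPos z X T) || l.all (fun z => sNeg z X T)

def rSame (l : List (ℤ → ℤ → ℤ)) (X T : El) : Bool :=
  l.all (fun z => rPos z X T) || l.all (fun z => rNeg z X T)

/-- own check: the gradient does not vanish where `z > 0` -/
def own (z : ℤ → ℤ → ℤ) (X T : El) : Bool :=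
  absent z X T || sSame [z] X T || rSame [z] X T

/-- own check, slopes only -/
def ownS (z : ℤ → ℤ → ℤ) (X T : El) : Bool := absent z X T || sSame [z] X T

/-- lists of heights `s` which have to be separated simultaneously -/
def hts (f : Bool) : List (List ℤ) := if f then [[1], [-1]] else [[1, -1]]

/-- check of the pair `s u`, `m + s' b` (`allowR`: rates may be used) -/
def pair (allowR : Bool) (u m b : ℤ → ℤ → ℤ) (X T : El) : Bool :=
  absent u X T || absent b X T ||
    (hts (full u X T)).all (fun l => (hts (full b X T)).all fun l' =>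
      let L : List (ℤ → ℤ → ℤ) :=
        l.flatMap fun s => l'.map fun s' => fun c k => m c k + s' * b c k - s * u c k
      sSame L X T || (allowR && rSame L X T))

/-- check of the pair: join of `p` and `q`, graph of `g` -/
def pairX (p q g : ℤ → ℤ → ℤ) (X T : El) : Bool :=
  absent (fun c k => p c k - q c k) X T ||
    (if full (fun c k => p c k - q c k) X T then
      sSame [fun c k => p c k - g c k] X T && sSame [fun c k => q c k - g c k] X T
    else sSame [fun c k => p c k - g c k, fun c k => q c k - g c k] X T)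

/-- all elements of the line from `near a` to `cell b` -/
def els (a b : ℤ) : List El :=
  (List.range (b - a + 1).toNat).flatMap fun i => [El.near (a + i), El.cell (a + i)]

/-- `X`-elements: `near (-9), cell (-9), ..., cell 15` -/
def allX : List El := els (-9) 15

/-- region 1: `t < 15/4` -/
def chk1 : Bool := allX.all fun X => (els (-2) 3).all fun T => own aI X T

/-- region 2, `13/4 < t < 47/4` -/
def T2 : List El := El.cell 3 :: els 4 11

/-- elements over the hole: `near 4, ..., near 7` -/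
def holeX : List El := els 4 6 ++ [El.near 7]
def holeT : List El := els 9 11 ++ [El.near 12]

def inHole (X T : El) : Bool := decide (X ∈ holeX) && decide (T ∈ holeT)

def chk2A : Bool := allX.all fun X => T2.all fun T => inHole X T || own aI' X T
def chk2B : Bool := allX.all fun X => T2.all fun T => inHole X T || own bI X T
/-- rates are not used in the bands `≤ 4` -/
def lateT : El → Bool
  | El.near k => decide (6 ≤ k)
  | El.cell k => decide (5 ≤ k)
def chk2AB : Bool := allX.all fun X => T2.all fun T => inHole X T || pair (lateT T) aI' mI bI X T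

/-- region 2, `T = near 12` (slopes only, except the crossings) -/
def chk12A : Bool := allX.all fun X =>
  inHole X (El.near 12) || decide (X = El.near 11) || ownS aI' X (El.near 12)
def chk12B : Bool := allX.all fun X =>
  inHole X (El.near 12) || decide (X = El.near (-5)) || ownS bI X (El.near 12)
def chk12AB : Bool := allX.all fun X =>
  inHole X (El.near 12) || decide (X = El.near 8) || pair false aI' mI bI X (El.near 12)
/-- at the crossing `x = 8`: the three other pairs -/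
def chk12C : Bool :=
  sSame [fun c k => mI c k + bI c k - aI' c k] (El.near 8) (El.near 12) &&
  sSame [fun c k => mI c k + bI c k + aI' c k] (El.near 8) (El.near 12) &&
  sSame [fun c k => mI c k - bI c k + aI' c k] (El.near 8) (El.near 12) &&
  full aI' (El.near 8) (El.near 12) && full bI (El.near 8) (El.near 12)

/-- region 3: `X = cell 3, ..., cell 7`, `T = cell 8, ..., near 12` -/
def X3 : List El := El.cell 3 :: els 4 7
def T3 : List El := El.cell 8 :: (els 9 11 ++ [El.near 12])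
def chk3X : Bool := X3.all fun X => T3.all fun T => own (fun c k => pI c k - qI c k) X T
def chk3XA : Bool := X3.all fun X => T3.all fun T => pairX pI qI (fun c k => -aI c k) X T
def chk3XB : Bool := X3.all fun X => T3.all fun T =>
  pairX pI qI (fun c k => mI c k - bI c k) X T
def chk3AB : Bool := X3.all fun X => T3.all fun T =>
  sSame [fun c k => mI c k - bI c k + aI c k] X T
/-- `u_X` is everywhere `≥ 0` and `T = near 12` needs slopes only -/
def chk3S : Bool := X3.all fun X => ownS (fun c k => pI c k - qI c k) X (El.near 12)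

/-- the slab `T = cell 11`: slopes only, except the crossings -/
def chkSA : Bool := allX.all fun X =>
  inHole X (El.cell 11) || decide (X = El.near 11) || ownS aI' X (El.cell 11)
def chkSB : Bool := allX.all fun X =>
  inHole X (El.cell 11) || decide (X = El.near (-5)) || ownS bI X (El.cell 11)
def chkSAB : Bool := allX.all fun X =>
  inHole X (El.cell 11) || decide (X = El.near 8) || pair false aI' mI bI X (El.cell 11)
def chkSC : Bool :=
  sSame [fun c k => mI c k + bI c k - aI' c k] (El.near 8) (El.cell 11) &&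
  sSame [fun c k => mI c k + bI c k + aI' c k] (El.near 8) (El.cell 11) &&
  sSame [fun c k => mI c k - bI c k + aI' c k] (El.near 8) (El.cell 11) &&
  rNeg aI' (El.near 11) (El.cell 11) && rNeg bI (El.near (-5)) (El.cell 11) &&
  rNeg (fun c k => aI' c k - mI c k + bI c k) (El.near 8) (El.cell 11)
def chkSX : Bool := X3.all fun X => ownS (fun c k => pI c k - qI c k) X (El.cell 11)

end GW
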