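import Mathlib

/-!
# MP_897da6_gt: compact Lagrangians of infinite Gromov width in `ℝ⁴` -- definitions

Coordinates of `E = Fin 4 → ℝ`: `(x, y, t, w) = (q 0, q 1, q 2, q 3)`,
`ω = dx ∧ dy + dt ∧ dw`.
-/

set_option autoImplicit false

open scoped ContDiff Topology
open Set Filter

namespace GW

/-- the space `ℝ⁴` -/
abbrev E := Fin 4 → ℝ

/-- the symplectic form -/
def om (u v : E) : ℝ := u 0 * v 1 - u 1 * v 0 + u 2 * v 3 - u 3 * v 2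

/-- standard basis vectors -/
def ev (i : Fin 4) : E := Pi.single i 1

/-- the Poisson bracket of two covectors -/
def br (a b : E →L[ℝ] ℝ) : ℝ :=
  a (ev 0) * b (ev 1) - a (ev 1) * b (ev 0) + a (ev 2) * b (ev 3) - a (ev 3) * b (ev 2)

/-- the local condition of the frozen statement -/
def Frz (L : Set E) (p : E) : Prop :=
  ∃ W : Set (Fin 4 → ℝ), ∃ g : (Fin 4 → ℝ) → (Fin 4 → ℝ),
    IsOpen W ∧ ContDiffOn ℝ ∞ g W ∧ Set.InjOn g W ∧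
    (∀ x ∈ W, Function.Injective (fderiv ℝ g x)) ∧
    p ∈ g '' W ∧
    L ∩ g '' W = g '' {x | x ∈ W ∧ x 1 = 0 ∧ x 3 = 0} ∧
    (∀ x ∈ W, x 1 = 0 → x 3 = 0 → ∀ u v : Fin 4 → ℝ,
      u 1 = 0 → u 3 = 0 → v 1 = 0 → v 3 = 0 →
      fderiv ℝ g x u 0 * fderiv ℝ g x v 1 - fderiv ℝ g x u 1 * fderiv ℝ g x v 0
        + fderiv ℝ g x u 2 * fderiv ℝ g x v 3 - fderiv ℝ g x u 3 * fderiv ℝ g x v 2 = 0)

/-- the open ball of radius `r` -/
def bal (r : ℝ) : Set E := {x | x 0 ^ 2 + x 1 ^ 2 + x 2 ^ 2 + x 3 ^ 2 < r ^ 2}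

/-- a relative symplectic ball of radius `r` -/
def RelBall (L : Set E) (r : ℝ) (φ : E → E) : Prop :=
  ContDiffOn ℝ ∞ φ (bal r) ∧ InjOn φ (bal r) ∧
  (∀ x ∈ bal r, ∀ u v : E, om (fderiv ℝ φ x u) (fderiv ℝ φ x v) = om u v) ∧
  (∀ x ∈ bal r, (φ x ∈ L ↔ (x 1 = 0 ∧ x 3 = 0)))

/-- `L` is near `p` the zero set of two independent functions which commute on `L`
(so it is a Lagrangian surface if `p ∈ L`) -/
def LagAt (L : Set E) (p : E) : Prop :=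
  ∃ V : Set E, IsOpen V ∧ p ∈ V ∧ ∃ G₁ G₂ : E → ℝ,
    ContDiffOn ℝ ∞ G₁ V ∧ ContDiffOn ℝ ∞ G₂ V ∧
    (∀ q ∈ V, (q ∈ L ↔ G₁ q = 0 ∧ G₂ q = 0)) ∧
    LinearIndependent ℝ ![fderiv ℝ G₁ p, fderiv ℝ G₂ p] ∧
    (∀ q ∈ V, G₁ q = 0 → G₂ q = 0 → br (fderiv ℝ G₁ q) (fderiv ℝ G₂ q) = 0)

/-- the same for a set of pairs (point, value of the potential); the potential `P` has
differential `y dx + w dt` at the points of `L`. -/
def LegAt (Λ : Set (E × ℝ)) (p : E) : Prop :=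
  ∃ V : Set E, IsOpen V ∧ p ∈ V ∧ ∃ G₁ G₂ P : E → ℝ,
    ContDiffOn ℝ ∞ G₁ V ∧ ContDiffOn ℝ ∞ G₂ V ∧ ContDiffOn ℝ ∞ P V ∧
    (∀ q ∈ V, ∀ v : ℝ, ((q, v) ∈ Λ ↔ G₁ q = 0 ∧ G₂ q = 0 ∧ v = P q)) ∧
    LinearIndependent ℝ ![fderiv ℝ G₁ p, fderiv ℝ G₂ p] ∧
    (∀ q ∈ V, G₁ q = 0 → G₂ q = 0 → br (fderiv ℝ G₁ q) (fderiv ℝ G₂ q) = 0) ∧
    (∀ q ∈ V, G₁ q = 0 → G₂ q = 0 → ∀ u : E, fderiv ℝ P q u = q 1 * u 0 + q 3 * u 2)

/-- projection of a set of pairs to `E` -/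
def prj (Λ : Set (E × ℝ)) : Set E := {q | ∃ v : ℝ, (q, v) ∈ Λ}

/-! ### Functions of the two base variables `(x, t)` -/

/-- the base point -/
def pr (q : E) : ℝ × ℝ := (q 0, q 2)

/-- `∂/∂x` -/
noncomputable def dX (ψ : ℝ × ℝ → ℝ) (z : ℝ × ℝ) : ℝ := fderiv ℝ ψ z (1, 0)

/-- `∂/∂t` -/
noncomputable def dT (ψ : ℝ × ℝ → ℝ) (z : ℝ × ℝ) : ℝ := fderiv ℝ ψ z (0, 1)

/-- the graph of the differential of `ψ`, with its potential -/
def Gr (ψ : ℝ × ℝ → ℝ) : Set (E × ℝ) :=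
  {a | a.1 1 = dX ψ (pr a.1) ∧ a.1 3 = dT ψ (pr a.1) ∧ a.2 = ψ (pr a.1)}

/-- the profile of the cusp edge: `hh u = u - 1/2` for `u ≤ 3/4`, `hh u = 1` for `1 ≤ u`. -/
noncomputable def hh (u : ℝ) : ℝ := (u - 1 / 2) + (3 / 2 - u) * Real.smoothTransition (4 * u - 3)

/-- `∫ √hh` -/
noncomputable def gg (u : ℝ) : ℝ := ∫ r in (1 / 2 : ℝ)..u, Real.sqrt (hh r)

/-- the small constant -/
noncomputable def ee : ℝ := 1 / 100

/-- the defect of the potential -/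
noncomputable def kk : ℝ := ee * (1 - gg 1)

/-- the join of the two sheets `φ + u` and `φ - u` along a cusp edge near `u = 0` -/
def Jn (φ u : ℝ × ℝ → ℝ) : Set (E × ℝ) :=
  {a | ∃ s : ℝ, s ^ 2 = hh (u (pr a.1) / ee) ∧
    a.1 1 = dX φ (pr a.1) + s * dX u (pr a.1) ∧
    a.1 3 = dT φ (pr a.1) + s * dT u (pr a.1) ∧
    a.2 = φ (pr a.1) + Real.sign s * (ee * gg (u (pr a.1) / ee))}

/-- the standard handle in coordinates `(Q₁, P₁, Q₂, P₂)` -/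
def Hd (cc : ℝ → ℝ) : Set E :=
  {z | z 0 * z 3 - z 2 * z 1 = 0 ∧
    2 * (z 0 * z 1 + z 2 * z 3) = cc (z 0 ^ 2 + z 2 ^ 2 - z 1 ^ 2 - z 3 ^ 2)}

/-! ### Mollifier and splines -/

/-- the bump used as a mollifier: support `[-1/4,1/4]`, constant on `[-1/8,1/8]` -/
noncomputable def bmp : ContDiffBump (0 : ℝ) := ⟨1 / 8, 1 / 4, by norm_num, by norm_num⟩

noncomputable def rho (x : ℝ) : ℝ := bmp.normed MeasureTheory.volume x

/-- smooth step: `0` for `x ≤ -1/4`, `1` for `x ≥ 1/4` -/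
noncomputable def mu (x : ℝ) : ℝ := ∫ y in (-1 : ℝ)..x, rho y

/-- `0` for `x ≤ -1/4`, `x` for `x ≥ 1/4` -/
noncomputable def MM (x : ℝ) : ℝ := ∫ y in (-1 : ℝ)..x, mu y

/-- smooth hat function -/
noncomputable def Lam (x : ℝ) : ℝ := MM (x + 1) - 2 * MM x + MM (x - 1)

/-- smooth indicator of `[0,1]` -/
noncomputable def Bx (x : ℝ) : ℝ := mu x - mu (x - 1)

/-- a grid function is supported in `[-10,16] × [0,24]` -/
def Sup (z : ℤ → ℤ → ℝ) : Prop := ∀ c k : ℤ, z c k ≠ 0 → -10 ≤ c ∧ c ≤ 16 ∧ 0 ≤ k ∧ k ≤ 24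

/-- the spline of a grid function -/
noncomputable def Sp (z : ℤ → ℤ → ℝ) (p : ℝ × ℝ) : ℝ :=
  ∑ c ∈ Finset.Icc (-12 : ℤ) 18, ∑ k ∈ Finset.Icc (-2 : ℤ) 26, z c k * Lam (p.1 - c) * Lam (p.2 - k)

/-- elements of the line: neighbourhoods `|x - c| < 1/4` of the integers and the cells
`[c + 1/4, c + 3/4]` -/
inductive El
  | near (c : ℤ)
  | cell (c : ℤ)
  deriving DecidableEq

namespace El

def mem : El → ℝ → Prop
  | near c, x => |x - c| < 1 / 4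
  | cell c, x => (c : ℝ) + 1 / 4 ≤ x ∧ x ≤ (c : ℝ) + 3 / 4

/-- active intervals -/
def iv : El → List ℤ
  | near c => [c - 1, c]
  | cell c => [c]

/-- active nodes -/
def nd : El → List ℤ
  | near c => [c - 1, c, c + 1]
  | cell c => [c, c + 1]

/-- nodes with weight at least `1/4` -/
def core : El → List ℤ
  | near c => [c]
  | cell c => [c, c + 1]

end El

end GW
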