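import Pool.Agent.Helper89.GW.Stmts

set_option autoImplicit false

namespace GW

set_option maxRecDepth 100000 in
theorem st_QDAT : ST_QDAT := by
  intro i j hi hj
  have h1 := abs_le.mp hi
  have h2 := abs_le.mp hj
  have h3 : i = -1 ∨ i = 0 ∨ i = 1 := by omega
  have h4 : j = -1 ∨ j = 0 ∨ j = 1 := by omega
  rcases h3 with rfl | rfl | rfl <;> rcases h4 with rfl | rfl | rfl <;> decide +kernel

end GW
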