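import Pool.Agent.Helper89.GW.Data

/-!
# Statements of the modules
-/

set_option autoImplicit false

open scoped ContDiff Topology
open Set Filter

namespace GW

/-! ## Soft part -/

/-- GLUE: local functions with prescribed value and differential on a compact set glue -/
def ST_GLUE : Prop := ∀ (V : Type) [NormedAddCommGroup V] [NormedSpace ℝ V]
  [FiniteDimensional ℝ V] (N : Set V) (h : V → ℝ) (b : V → V →L[ℝ] ℝ), IsCompact N →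
  (∀ n ∈ N, ∃ O : Set V, IsOpen O ∧ n ∈ O ∧ ∃ H : V → ℝ, ContDiffOn ℝ ∞ H O ∧
    ∀ m ∈ N, m ∈ O → H m = h m ∧ fderiv ℝ H m = b m) →
  ∃ H : V → ℝ, ContDiff ℝ ∞ H ∧ HasCompactSupport H ∧
    ∀ m ∈ N, H m = h m ∧ fderiv ℝ H m = b m

/-- solutions on `[0,1]` of a time dependent vector field -/
def Sol {F : Type} [NormedAddCommGroup F] [NormedSpace ℝ F] (X : ℝ × F → F) (c : ℝ → F) : Prop :=
  ∀ s ∈ Icc (0 : ℝ) 1, HasDerivWithinAt c (X (s, c s)) (Icc 0 1) s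

/-- UNIQ -/
def ST_UNIQ : Prop := ∀ (F : Type) [NormedAddCommGroup F] [NormedSpace ℝ F]
  [FiniteDimensional ℝ F] (X : ℝ × F → F), ContDiff ℝ ∞ X → ∀ c d : ℝ → F, Sol X c → Sol X d →
  (c 0 = d 0 → ∀ s ∈ Icc (0 : ℝ) 1, c s = d s) ∧ (c 1 = d 1 → ∀ s ∈ Icc (0 : ℝ) 1, c s = d s)

/-- DEP: Lipschitz dependence near a given solution -/
def ST_DEP : Prop := ∀ (F : Type) [NormedAddCommGroup F] [NormedSpace ℝ F]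
  [FiniteDimensional ℝ F] (X : ℝ × F → F), ContDiff ℝ ∞ X → ∀ c : ℝ → F, Sol X c →
  ∃ δ > 0, ∃ C > 0, ∀ d : ℝ → F, Sol X d → ‖d 0 - c 0‖ < δ →
    ∀ s ∈ Icc (0 : ℝ) 1, ‖d s - c s‖ ≤ C * ‖d 0 - c 0‖

/-- LINO: linear equations have solutions on `[0,1]` -/
def ST_LINO : Prop := ∀ (F : Type) [NormedAddCommGroup F] [NormedSpace ℝ F]
  [FiniteDimensional ℝ F] (A : ℝ → F →L[ℝ] F), ContinuousOn A (Icc 0 1) → ∀ x₀ : F,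
  ∃ c : ℝ → F, c 0 = x₀ ∧ ∀ s ∈ Icc (0 : ℝ) 1, HasDerivWithinAt c (A s (c s)) (Icc 0 1) s

/-- BDD: compactly supported fields have global solutions -/
def ST_BDD : Prop := ∀ (F : Type) [NormedAddCommGroup F] [NormedSpace ℝ F]
  [FiniteDimensional ℝ F] (X : ℝ × F → F), ContDiff ℝ ∞ X → HasCompactSupport X → ∀ x₀ : F,
  ∃ c : ℝ → F, c 0 = x₀ ∧ Sol X c

/-- DIFF: the flow is differentiable, the derivative solves the variational equation -/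
def ST_DIFF : Prop := ∀ (F : Type) [NormedAddCommGroup F] [NormedSpace ℝ F]
  [FiniteDimensional ℝ F] (X : ℝ × F → F) (φ : ℝ → F → F), ContDiff ℝ ∞ X →
  (∀ q, φ 0 q = q) → (∀ q, Sol X (fun s => φ s q)) →
  ∃ A : ℝ → F → F →L[ℝ] F, (∀ s ∈ Icc (0 : ℝ) 1, ∀ q, HasFDerivAt (φ s) (A s q) q) ∧
    (∀ q, A 0 q = ContinuousLinearMap.id ℝ F) ∧
    ∀ q, ∀ s ∈ Icc (0 : ℝ) 1, HasDerivWithinAt (fun s => A s q)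
      ((fderiv ℝ (fun x => X (s, x)) (φ s q)).comp (A s q)) (Icc 0 1) s

/-- CINF: the flow is smooth -/
def ST_CINF : Prop := ∀ (F : Type) [NormedAddCommGroup F] [NormedSpace ℝ F]
  [FiniteDimensional ℝ F] (X : ℝ × F → F) (φ : ℝ → F → F), ContDiff ℝ ∞ X →
  (∀ q, φ 0 q = q) → (∀ q, Sol X (fun s => φ s q)) →
  ∀ s ∈ Icc (0 : ℝ) 1, ContDiff ℝ ∞ (φ s)

/-- the Hamiltonian vector field: `om (XH H z) u = dH(z)(0,u)` -/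
noncomputable def XH (H : ℝ × E → ℝ) (z : ℝ × E) : E :=
  ![fderiv ℝ H z (0, ev 1), -fderiv ℝ H z (0, ev 0), fderiv ℝ H z (0, ev 3),
    -fderiv ℝ H z (0, ev 2)]

/-- solutions of the Hamiltonian system on `[1,S]` -/
def HSol (H : ℝ × E → ℝ) (S : ℝ) (c : ℝ → E) : Prop :=
  ∀ s ∈ Icc (1 : ℝ) S, HasDerivWithinAt c (XH H (s, c s)) (Icc 1 S) s

/-- HAMF: the (backward) Hamiltonian flow from time `S` to time `1` -/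
def ST_HAMF : Prop := ∀ (H : ℝ × E → ℝ) (S : ℝ), 1 ≤ S → ContDiff ℝ ∞ H → HasCompactSupport H →
  ∃ θ : E → E, ContDiff ℝ ∞ θ ∧
    (∀ x u v, om (fderiv ℝ θ x u) (fderiv ℝ θ x v) = om u v) ∧ Function.Injective θ ∧
    (∀ c, HSol H S c → θ (c S) = c 1) ∧ (∀ q, ∃ c, HSol H S c ∧ c S = q) ∧
    (∀ c d, HSol H S c → HSol H S d → c 1 = d 1 → c S = d S)

/-- scaling factor -/
def al (β : ℝ → ℝ) (s t : ℝ) : ℝ := 1 + (s - 1) * β t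

/-- the deformation `Φ_s` -/
noncomputable def Phi (β : ℝ → ℝ) (F : E → ℝ) (s : ℝ) (p : E) : E :=
  ![al β s (p 2) * p 0, p 1, p 2, al β s (p 2) * p 3 - (s - 1) * deriv β (p 2) * F p]

/-- its velocity (independent of `s`) -/
noncomputable def Vel (β : ℝ → ℝ) (F : E → ℝ) (p : E) : E :=
  ![β (p 2) * p 0, 0, 0, β (p 2) * p 3 - deriv β (p 2) * F p]

structure SoftData (L : Set E) (F : E → ℝ) (β : ℝ → ℝ) (t₀ t₁ : ℝ) : Prop where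
  cpt : IsCompact L
  lt : t₀ < t₁
  smF : ContDiff ℝ ∞ F
  smβ : ContDiff ℝ ∞ β
  one : ∀ t, t ≤ t₀ → β t = 1
  zero : ∀ t, t₁ ≤ t → β t = 0
  nonneg : ∀ t, 0 ≤ β t
  anti : ∀ t, deriv β t ≤ 0
  loc : ∀ t, deriv β t ≠ 0 → t₀ < t ∧ t < t₁
  diff : ∀ p ∈ L, p 2 ≤ t₁ → ∀ u : E, fderiv ℝ F p u = p 0 * u 1 - p 3 * u 2
  slab : ∀ p ∈ L, ∀ q ∈ L, t₀ < p 2 → p 2 < t₁ → p 0 = q 0 → p 1 = q 1 → p 2 = q 2 →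
    q 3 < p 3 → F q < F p

/-- PHI: `Φ_s` is injective on `L`, immersive at `L`, and `β F` is its Hamiltonian -/
def ST_PHI : Prop := ∀ (L : Set E) (F : E → ℝ) (β : ℝ → ℝ) (t₀ t₁ : ℝ), SoftData L F β t₀ t₁ →
  (∀ s, 1 ≤ s → InjOn (Phi β F s) L) ∧
  (∀ s, 1 ≤ s → ∀ p ∈ L, Function.Injective (fderiv ℝ (Phi β F s) p)) ∧
  (∀ s, ∀ p ∈ L, ∀ u : E, fderiv ℝ (fun q => β (q 2) * F q) p u =
    om (Vel β F p) (fderiv ℝ (Phi β F s) p u))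

/-- HEXT: the Hamiltonian on the family `Φ_s(L)` extends -/
def ST_HEXT : Prop := ∀ (L : Set E) (F : E → ℝ) (β : ℝ → ℝ) (t₀ t₁ : ℝ),
  SoftData L F β t₀ t₁ → ∀ S : ℝ, 1 ≤ S → ∃ H : ℝ × E → ℝ, ContDiff ℝ ∞ H ∧
    HasCompactSupport H ∧ ∀ s ∈ Icc 1 S, ∀ p ∈ L, ∀ u : E,
      fderiv ℝ H (s, Phi β F s p) (0, u) = om (Vel β F p) u

/-- FEXT: soft data exist -/
def ST_FEXT : Prop := ∀ (L : Set E) (f : E → ℝ) (t₀ t₁ : ℝ), t₀ < t₁ → IsCompact L →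
  (∀ p ∈ L, p 2 ≤ t₁ → ∃ V : Set E, IsOpen V ∧ p ∈ V ∧ ∃ P : E → ℝ, ContDiffOn ℝ ∞ P V ∧
    ∀ q ∈ L, q ∈ V → P q = f q ∧ ∀ u : E, fderiv ℝ P q u = q 1 * u 0 + q 3 * u 2) →
  (∀ p ∈ L, ∀ q ∈ L, t₀ < p 2 → p 2 < t₁ → p 0 = q 0 → p 1 = q 1 → p 2 = q 2 → q 3 < p 3 →
    f p < f q) →
  ∃ (F : E → ℝ) (β : ℝ → ℝ), SoftData L F β t₀ t₁

/-- SCAL: the scaled relative ball of `Φ_S(L)` -/
def ST_SCAL : Prop := ∀ (L : Set E) (F : E → ℝ) (β : ℝ → ℝ) (t₀ t₁ : ℝ), SoftData L F β t₀ t₁ →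
  ∀ (r : ℝ) (χ : E → E), 0 < r → RelBall L r χ → (∀ x ∈ bal r, (χ x) 2 < t₀) →
  ∀ S : ℝ, 1 ≤ S → ∃ φ : E → E, RelBall (Phi β F S '' L) (Real.sqrt S * r) φ

/-- SOFT -/
def ST_SOFT : Prop := ∀ (L : Set E) (f : E → ℝ) (t₀ t₁ : ℝ), t₀ < t₁ → IsCompact L →
  (∀ p ∈ L, p 2 ≤ t₁ → ∃ V : Set E, IsOpen V ∧ p ∈ V ∧ ∃ P : E → ℝ, ContDiffOn ℝ ∞ P V ∧
    ∀ q ∈ L, q ∈ V → P q = f q ∧ ∀ u : E, fderiv ℝ P q u = q 1 * u 0 + q 3 * u 2) →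
  (∀ p ∈ L, ∀ q ∈ L, t₀ < p 2 → p 2 < t₁ → p 0 = q 0 → p 1 = q 1 → p 2 = q 2 → q 3 < p 3 →
    f p < f q) →
  (∃ (r : ℝ) (χ : E → E), 0 < r ∧ RelBall L r χ ∧ ∀ x ∈ bal r, (χ x) 2 < t₀) →
  ∀ r : ℝ, 0 < r → ∃ φ : E → E, RelBall L r φ

/-! ## Local geometry -/

/-- CHART -/
def ST_CHART : Prop := ∀ (L : Set E) (p : E), p ∈ L → LagAt L p → Frz L p

/-- PULL: the condition is preserved by local symplectic maps -/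
def ST_PULL : Prop := ∀ (L : Set E) (Θ : E → E) (V : Set E) (p : E), IsOpen V → p ∈ V →
  ContDiffOn ℝ ∞ Θ V →
  (∀ q ∈ V, ∀ u v : E, om (fderiv ℝ Θ q u) (fderiv ℝ Θ q v) = om u v) →
  LagAt L (Θ p) → LagAt (Θ ⁻¹' L) p

/-- HAND: the handle is Lagrangian -/
def ST_HAND : Prop := ∀ cc : ℝ → ℝ, ContDiff ℝ ∞ cc → cc 0 ≠ 0 → ∀ p ∈ Hd cc, LagAt (Hd cc) p

/-- near `d` the set `L` is the union of two graphs crossing transversally at `d`, whose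
difference is linear -/
def DblPt (L : Set E) (d : E) : Prop :=
  ∃ (ψ : ℝ × ℝ → ℝ) (c : ℝ × ℝ) (m₁ m₂ : ℝ) (U : Set E), ContDiff ℝ ∞ ψ ∧ m₁ ≠ 0 ∧ m₂ ≠ 0 ∧
    IsOpen U ∧ d ∈ U ∧ d = ![c.1, dX ψ c, c.2, dT ψ c] ∧
    ∀ q ∈ U, (q ∈ L ↔ (q 1 = dX ψ (pr q) ∧ q 3 = dT ψ (pr q)) ∨
      (q 1 = dX ψ (pr q) + m₁ * (q 0 - c.1) ∧ q 3 = dT ψ (pr q) + m₂ * (q 2 - c.2)))

/-- SURG: Lagrangian surgery at a double point -/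
def ST_SURG : Prop := ∀ (L₀ : Set E) (d : E) (U : Set E), IsCompact L₀ → DblPt L₀ d →
  IsOpen U → d ∈ U → ∃ L₁ K : Set E, IsCompact L₁ ∧ IsCompact K ∧ K ⊆ U ∧ d ∈ interior K ∧
    (∀ q, q ∉ K → (q ∈ L₁ ↔ q ∈ L₀)) ∧ (∀ p ∈ K, p ∈ L₁ → LagAt L₁ p)

/-- BALL: a small relative ball at a point where `L` is a graph -/
def ST_BALL : Prop := ∀ (L : Set E) (ψ : ℝ × ℝ → ℝ) (c : ℝ × ℝ) (U : Set E), ContDiff ℝ ∞ ψ →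
  IsOpen U → ![c.1, dX ψ c, c.2, dT ψ c] ∈ U →
  (∀ q ∈ U, (q ∈ L ↔ q 1 = dX ψ (pr q) ∧ q 3 = dT ψ (pr q))) →
  ∃ (r : ℝ) (χ : E → E), 0 < r ∧ RelBall L r χ ∧ ∀ x ∈ bal r, χ x ∈ U

/-- GLEG: graphs -/
def ST_GLEG : Prop := ∀ ψ : ℝ × ℝ → ℝ, ContDiff ℝ ∞ ψ →
  (∀ p, LegAt (Gr ψ) p) ∧ IsClosed (prj (Gr ψ)) ∧
    ∀ K : Set (ℝ × ℝ), IsCompact K → IsCompact {q | q ∈ prj (Gr ψ) ∧ pr q ∈ K}

/-- HHF: the profile functions -/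
def ST_HHF : Prop := ContDiff ℝ ∞ hh ∧ (∀ u, u ≤ 3 / 4 → hh u = u - 1 / 2) ∧
  (∀ u, 1 ≤ u → hh u = 1) ∧ (∀ u, 1 / 2 < u → 0 < hh u) ∧ (∀ u, hh u ≤ 1) ∧
  0 < gg 1 ∧ gg 1 < 1 ∧ (∀ u, 1 ≤ u → gg u = gg 1 + (u - 1)) ∧
  (∀ s, 0 ≤ s → s ≤ 1 / 2 → gg (1 / 2 + s ^ 2) = 2 / 3 * s ^ 3) ∧
  ContDiffOn ℝ ∞ gg (Ioi (1 / 2)) ∧ (∀ u, 1 / 2 < u → HasDerivAt gg (Real.sqrt (hh u)) u) ∧
  0 < kk ∧ kk < ee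

/-- JLEG: the join is Legendrian where `∇u ≠ 0` -/
def ST_JLEG : Prop := ∀ (φ u : ℝ × ℝ → ℝ) (p : E), ContDiff ℝ ∞ φ → ContDiff ℝ ∞ u →
  p ∈ prj (Jn φ u) → (dX u (pr p) ≠ 0 ∨ dT u (pr p) ≠ 0) → LegAt (Jn φ u) p

/-- JCL: the join is compact -/
def ST_JCL : Prop := ∀ (φ u : ℝ × ℝ → ℝ), ContDiff ℝ ∞ φ → ContDiff ℝ ∞ u →
  HasCompactSupport u → IsCompact (prj (Jn φ u))

/-- JFUL: away from the cusp edge the join is the union of two graphs -/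
def ST_JFUL : Prop := ∀ (φ u : ℝ × ℝ → ℝ) (a : E × ℝ), ContDiff ℝ ∞ φ → ContDiff ℝ ∞ u →
  ee ≤ u (pr a.1) →
  (a ∈ Jn φ u ↔ a ∈ Gr (fun z => φ z + u z - kk) ∨ a ∈ Gr (fun z => φ z - u z + kk))

/-! ## Mollifier and splines -/

/-- MU -/
def ST_MU : Prop := ContDiff ℝ ∞ mu ∧ (∀ x, x ≤ -1 / 4 → mu x = 0) ∧
  (∀ x, 1 / 4 ≤ x → mu x = 1) ∧ (∀ x, |x| < 1 / 4 → 0 < mu x ∧ mu x < 1) ∧
  (∀ x, 0 ≤ mu x ∧ mu x ≤ 1) ∧ (∀ x, mu x + mu (-x) = 1) ∧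
  (∀ x, |x| < 1 / 4 → mu x = 1 / 2 → x = 0) ∧
  ∃ r, 0 < r ∧ ∀ x, |x| ≤ 1 / 8 → mu x = 1 / 2 + r * x

/-- LAM -/
def ST_LAM : Prop := ContDiff ℝ ∞ Lam ∧ ContDiff ℝ ∞ Bx ∧
  (∀ x, HasDerivAt Lam (Bx (x + 1) - Bx x) x) ∧ (∀ x, 0 ≤ Bx x) ∧ (∀ x, 0 ≤ Lam x) ∧
  (∀ x, 0 < Bx x ↔ -1 / 4 < x ∧ x < 5 / 4) ∧ (∀ x, 0 < Lam x ↔ |x| < 5 / 4) ∧
  (∀ x, Lam (-x) = Lam x) ∧ (∀ x, 1 / 4 ≤ |x| → |x| ≤ 3 / 4 → Lam x = 1 - |x|) ∧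
  (∀ x, |x| ≤ 3 / 4 → 1 / 4 ≤ Lam x) ∧
  (∀ x, -1 ≤ x → x ≤ 0 → Lam (x + 2) + Lam (x + 1) + Lam x + Lam (x - 1) = 1) ∧
  (∀ x, |x| ≤ 3 / 4 → Bx (x + 1) = 1 - mu x ∧ Bx x = mu x)

/-- ELEM: elements of the line -/
def ST_ELEM : Prop := (∀ x : ℝ, ∃ e : El, e.mem x) ∧
  ∀ (e : El) (x : ℝ), e.mem x → (∀ c : ℤ, 0 < Bx (x - c) ↔ c ∈ e.iv) ∧
    (∀ c : ℤ, 0 < Lam (x - c) ↔ c ∈ e.nd) ∧ (∀ c ∈ e.core, 1 / 4 ≤ Lam (x - c))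

def SupI (z : ℤ → ℤ → ℤ) : Prop :=
  ∀ c k : ℤ, z c k ≠ 0 → -10 ≤ c ∧ c ≤ 16 ∧ 0 ≤ k ∧ k ≤ 24

/-- the spline of an integer array -/
noncomputable def sp (z : ℤ → ℤ → ℤ) : ℝ × ℝ → ℝ := Sp fun c k => (z c k : ℝ)

/-- SPD: smoothness, support, derivatives -/
def ST_SPD : Prop := ∀ z : ℤ → ℤ → ℤ, SupI z → ContDiff ℝ ∞ (sp z) ∧ HasCompactSupport (sp z) ∧
  (∀ x t : ℝ, dX (sp z) (x, t) = ∑ c ∈ Finset.Icc (-12 : ℤ) 18, ∑ k ∈ Finset.Icc (-2 : ℤ) 26,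
    ((z (c + 1) k : ℝ) - z c k) * Bx (x - c) * Lam (t - k)) ∧
  (∀ x t : ℝ, dT (sp z) (x, t) = ∑ c ∈ Finset.Icc (-12 : ℤ) 18, ∑ k ∈ Finset.Icc (-2 : ℤ) 26,
    ((z c (k + 1) : ℝ) - z c k) * Lam (x - c) * Bx (t - k))

/-- the functions `u`, `v` agree at `z` to first order -/
def Same (u v : ℝ × ℝ → ℝ) (z : ℝ × ℝ) : Prop := u z = v z ∧ dX u z = dX v z ∧ dT u z = dT v z

/-- SIGN: consequences of the sign conditions on an element -/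
def ST_SIGN : Prop := ∀ (z : ℤ → ℤ → ℤ) (X T : El) (x t : ℝ), SupI z → X.mem x → T.mem t →
  (sPos z X T = true → 0 < dX (sp z) (x, t)) ∧ (sNeg z X T = true → dX (sp z) (x, t) < 0) ∧
  (rPos z X T = true → 0 < dT (sp z) (x, t)) ∧ (rNeg z X T = true → dT (sp z) (x, t) < 0) ∧
  (absent z X T = true → sp z (x, t) = 0) ∧
  ((∀ c ∈ X.nd, ∀ k ∈ T.nd, 0 ≤ z c k) → full z X T = true → 1 / 16 ≤ sp z (x, t)) ∧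
  (∀ m : ℤ, (∀ c ∈ X.nd, ∀ k ∈ T.nd, m ≤ z c k) → -8 ≤ x → x ≤ 14 → 0 ≤ t → t ≤ 24 →
    (m : ℝ) ≤ sp z (x, t))

/-- SLOC: the value and the derivatives depend only on the active nodes -/
def ST_SLOC : Prop := ∀ (z z' : ℤ → ℤ → ℤ) (X T : El) (x t : ℝ), SupI z → SupI z' →
  X.mem x → T.mem t → (∀ c ∈ X.nd, ∀ k ∈ T.nd, z c k = z' c k) → Same (sp z) (sp z') (x, t)

/-- SLIN: linearity -/
def ST_SLIN : Prop := ∀ (m b u : ℤ → ℤ → ℤ) (s s' : ℤ) (z : ℝ × ℝ), SupI m → SupI b → SupI u →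
  SupI (fun c k => m c k + s' * b c k - s * u c k) ∧
  sp (fun c k => m c k + s' * b c k - s * u c k) z = sp m z + s' * sp b z - s * sp u z ∧
  dX (sp fun c k => m c k + s' * b c k - s * u c k) z =
    dX (sp m) z + s' * dX (sp b) z - s * dX (sp u) z ∧
  dT (sp fun c k => m c k + s' * b c k - s * u c k) z =
    dT (sp m) z + s' * dT (sp b) z - s * dT (sp u) z

/-- SREF: reflection `t ↦ 24 - t` -/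
def ST_SREF : Prop := ∀ z : ℤ → ℤ → ℤ, SupI z → (∀ c k, z c (24 - k) = z c k) → ∀ x t : ℝ,
  sp z (x, 24 - t) = sp z (x, t) ∧ dX (sp z) (x, 24 - t) = dX (sp z) (x, t) ∧
    dT (sp z) (x, 24 - t) = -dT (sp z) (x, t)

/-- QUAD: the spline near a crossing -/
def ST_QUAD : Prop := ∀ (z : ℤ → ℤ → ℤ) (c Z s r : ℤ), SupI z → -8 ≤ c → c ≤ 14 →
  (∀ i j : ℤ, |i| ≤ 1 → |j| ≤ 1 → z (c + i) (12 + j) = Z - s * |i| + r * |j|) →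
  ∀ x t : ℝ, |x - c| ≤ 3 / 4 → |t - 12| ≤ 3 / 4 →
    dX (sp z) (x, t) = -s * (2 * mu (x - c) - 1) ∧ dT (sp z) (x, t) = r * (2 * mu (t - 12) - 1)

/-! ## The surface -/

noncomputable def uA : ℝ × ℝ → ℝ := sp aI
noncomputable def uA' : ℝ × ℝ → ℝ := sp aI'
noncomputable def uB : ℝ × ℝ → ℝ := sp bI
noncomputable def mR : ℝ × ℝ → ℝ := fun z => sp mI z + 2 * kk * sp xI z
noncomputable def phX : ℝ × ℝ → ℝ := fun z => (sp pI z + sp qI z) / 2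
noncomputable def uX : ℝ × ℝ → ℝ := fun z => (sp pI z - sp qI z) / 2
noncomputable def psA : ℝ × ℝ → ℝ := fun z => -sp aI z + kk
noncomputable def psB : ℝ × ℝ → ℝ := fun z => sp mI z - sp bI z + 3 * kk

def D1 (z : ℝ × ℝ) : Prop := z.2 ≤ 7 / 2 ∨ 41 / 2 ≤ z.2
def D2 (z : ℝ × ℝ) : Prop := 7 / 2 ≤ z.2 ∧ z.2 ≤ 41 / 2 ∧
  ¬ (7 / 2 < z.1 ∧ z.1 < 15 / 2 ∧ 17 / 2 < z.2 ∧ z.2 < 31 / 2)
def D3 (z : ℝ × ℝ) : Prop := 7 / 2 ≤ z.1 ∧ z.1 ≤ 15 / 2 ∧ 17 / 2 ≤ z.2 ∧ z.2 ≤ 31 / 2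

/-- the exact immersed Lagrangian (with its potential) -/
def Lh : Set (E × ℝ) :=
  {a | (D1 (pr a.1) ∧ a ∈ Jn (fun _ => 0) uA) ∨
    (D2 (pr a.1) ∧ (a ∈ Jn (fun _ => 0) uA' ∨ a ∈ Jn mR uB)) ∨
    (D3 (pr a.1) ∧ (a ∈ Jn phX uX ∨ a ∈ Gr psA ∨ a ∈ Gr psB))}

def O1 (z : ℝ × ℝ) : Prop := z.2 < 15 / 4 ∨ 81 / 4 < z.2
def O2 (z : ℝ × ℝ) : Prop := 13 / 4 < z.2 ∧ z.2 < 83 / 4 ∧
  ¬ (15 / 4 ≤ z.1 ∧ z.1 ≤ 29 / 4 ∧ 35 / 4 ≤ z.2 ∧ z.2 ≤ 61 / 4)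
def O3 (z : ℝ × ℝ) : Prop := 13 / 4 < z.1 ∧ z.1 < 31 / 4 ∧ 33 / 4 < z.2 ∧ z.2 < 63 / 4

/-- DAT: trivial facts about the arrays -/
def ST_DAT : Prop := (SupI aI ∧ SupI aI' ∧ SupI bI ∧ SupI mI ∧ SupI pI ∧ SupI qI ∧ SupI xI) ∧
  ((∀ c k, aI c (24 - k) = aI c k) ∧ (∀ c k, aI' c (24 - k) = aI' c k) ∧
    (∀ c k, bI c (24 - k) = bI c k) ∧ (∀ c k, mI c (24 - k) = mI c k) ∧
    (∀ c k, pI c (24 - k) = pI c k) ∧ (∀ c k, qI c (24 - k) = qI c k) ∧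
    (∀ c k, xI c (24 - k) = xI c k)) ∧
  ((∀ c k, 0 ≤ aI c k) ∧ (∀ c k, 0 ≤ aI' c k) ∧ (∀ c k, 0 ≤ bI c k) ∧
    (∀ c k, 3 ≤ c → c ≤ 8 → 8 ≤ k → k ≤ 16 → qI c k ≤ pI c k)) ∧
  ((∀ c k, c ≤ -2 → 3 ≤ k → k ≤ 21 → k ≤ 4 ∨ 20 ≤ k → aI c k = bI c k ∧ aI' c k = 0 ∧
      mI c k = 0 ∧ xI c k = 0) ∧
    (∀ c k, -3 ≤ c → 3 ≤ k → k ≤ 21 → k ≤ 4 ∨ 20 ≤ k → aI c k = aI' c k ∧ bI c k = 0)) ∧
  ((∀ c k, -1 ≤ c → aI' c k = aI c k) ∧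
    (∀ c k, 3 ≤ c → c ≤ 8 → 8 ≤ k → k ≤ 16 → xI c k = 1 ∧ 1 ≤ aI c k ∧ 1 ≤ bI c k) ∧
    (∀ c k, 3 ≤ c → c ≤ 8 → 8 ≤ k → k ≤ 16 → (c ≤ 4 ∨ 7 ≤ c ∨ k ≤ 9 ∨ 15 ≤ k) →
      pI c k = aI c k ∧ qI c k = mI c k + bI c k))

/-- QDAT: the arrays near the three crossings -/
def ST_QDAT : Prop := ∀ i j : ℤ, |i| ≤ 1 → |j| ≤ 1 →
  aI' (11 + i) (12 + j) = 266 - 10 * |i| + 2 * |j| ∧
  bI (-5 + i) (12 + j) = 278 - 10 * |i| + 2 * |j| ∧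
  aI' (8 + i) (12 + j) - mI (8 + i) (12 + j) + bI (8 + i) (12 + j) =
    26 - (-12) * |i| + 2 * |j| ∧
  mI (-5 + i) (12 + j) = 0 ∧ xI (-5 + i) (12 + j) = 0 ∧ xI (8 + i) (12 + j) = 1

/-- COI: coincidences of the charts -/
def ST_COI : Prop :=
  (∀ z : ℝ × ℝ, (13 / 4 < z.2 ∧ z.2 < 15 / 4) ∨ (81 / 4 < z.2 ∧ z.2 < 83 / 4) →
    (z.1 < -9 / 4 → Same uA uB z ∧ Same uA' (fun _ => 0) z ∧ Same mR (fun _ => 0) z) ∧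
    (-11 / 4 < z.1 → Same uA uA' z ∧ Same uB (fun _ => 0) z)) ∧
  (∀ z : ℝ × ℝ, O3 z → Same uA uA' z ∧ Same mR (fun z => sp mI z + 2 * kk) z ∧
    ee ≤ uA z ∧ ee ≤ uB z ∧
    (O2 z → Same (sp pI) (sp aI) z ∧ Same (sp qI) (fun z => sp mI z + sp bI z) z ∧ ee ≤ uX z))

/-- REG: description of `Lh` in three open regions covering the plane -/
def ST_REG : Prop := (∀ z, O1 z ∨ O2 z ∨ O3 z) ∧
  (∀ a : E × ℝ, O1 (pr a.1) → (a ∈ Lh ↔ a ∈ Jn (fun _ => 0) uA)) ∧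
  (∀ a : E × ℝ, O2 (pr a.1) → (a ∈ Lh ↔ a ∈ Jn (fun _ => 0) uA' ∨ a ∈ Jn mR uB)) ∧
  (∀ a : E × ℝ, O3 (pr a.1) → (a ∈ Lh ↔ a ∈ Jn phX uX ∨ a ∈ Gr psA ∨ a ∈ Gr psB))

/-- CPT -/
def ST_CPT : Prop := IsCompact (prj Lh)

/-- NP1: region 1 -/
def ST_NP1 : Prop := ∀ z, O1 z → 0 < uA z → dX uA z ≠ 0 ∨ dT uA z ≠ 0

/-- NP2A, NP2B: region 2, own conditions -/
def ST_NP2A : Prop := ∀ z, O2 z → 0 < uA' z → z ≠ (11, 12) → dX uA' z ≠ 0 ∨ dT uA' z ≠ 0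
def ST_NP2B : Prop := ∀ z, O2 z → 0 < uB z → z ≠ (-5, 12) → dX uB z ≠ 0 ∨ dT uB z ≠ 0

/-- NP2AB: region 2, the two ribbons are disjoint except at one point -/
def ST_NP2AB : Prop := ∀ z (s s' : ℝ), O2 z → s ^ 2 = hh (uA' z / ee) →
  s' ^ 2 = hh (uB z / ee) → s * dX uA' z = dX mR z + s' * dX uB z →
  s * dT uA' z = dT mR z + s' * dT uB z → z = (8, 12) ∧ s = 1 ∧ s' = -1

/-- NP3: region 3 -/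
def ST_NP3 : Prop := (∀ z, O3 z → 0 < uX z → dX uX z ≠ 0 ∨ dT uX z ≠ 0) ∧
  (∀ z (s : ℝ), O3 z → s ^ 2 = hh (uX z / ee) →
    dX phX z + s * dX uX z ≠ dX psA z ∧ dX phX z + s * dX uX z ≠ dX psB z) ∧
  (∀ z, O3 z → dX psA z ≠ dX psB z)

/-- the three double points -/
noncomputable def d1 : E := ![11, 0, 12, 0]
noncomputable def d2 : E := ![-5, 0, 12, 0]
noncomputable def d3 : E := ![8, dX uA' (8, 12), 12, 0]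

/-- LEG: `Lh` is Legendrian away from the double points -/
def ST_LEG : Prop := ∀ p ∈ prj Lh, p ≠ d1 → p ≠ d2 → p ≠ d3 → LegAt Lh p

/-- DP: the double points -/
def ST_DP : Prop := DblPt (prj Lh) d1 ∧ DblPt (prj Lh) d2 ∧ DblPt (prj Lh) d3

/-- SLAB: the crossings over `45/4 < t < 47/4` are negative -/
def ST_SLAB : Prop := ∀ a ∈ Lh, ∀ b ∈ Lh, 45 / 4 < a.1 2 → a.1 2 < 47 / 4 → a.1 0 = b.1 0 →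
  a.1 1 = b.1 1 → a.1 2 = b.1 2 → b.1 3 < a.1 3 → a.2 < b.2

/-- GP: a point near which `Lh` is a graph -/
def ST_GP : Prop := ∃ (ψ : ℝ × ℝ → ℝ) (c : ℝ × ℝ) (U : Set E), ContDiff ℝ ∞ ψ ∧ IsOpen U ∧
  ![c.1, dX ψ c, c.2, dT ψ c] ∈ U ∧
  (∀ q ∈ U, (q ∈ prj Lh ↔ q 1 = dX ψ (pr q) ∧ q 3 = dT ψ (pr q))) ∧ (∀ q ∈ U, q 2 < 45 / 4)

end GW
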